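import Pool.Agent.ClosedPlane.Defs

/-! Existence of a trichromatic lattice triangle: Sperner's lemma for the lattice triangle with
the corners `0`, `(N, 0)`, `(0, N)`, applied to the monochromatic components. -/

namespace Pool.Agent.ClosedPlane.Sp

open Finset

/-- Stokes for the big triangle, with horizontal, vertical and diagonal edges as functions of
their lower left position -/
theorem stokes_big (H V D : ℤ → ℤ → ZMod 2) (N : ℕ)
    (hL : ∀ i j : ℕ, i + j + 1 ≤ N → H i j + V i j + D i j = 0)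
    (hU : ∀ i j : ℕ, i + j + 2 ≤ N → V (i + 1) j + H i (j + 1) + D i j = 0) :
    (∑ i ∈ range N, H i 0) + (∑ j ∈ range N, V 0 j) + (∑ i ∈ range N, D i (N - 1 - i)) = 0 := by
  induction N with
  | zero => simp
  | succ N ih =>
    have ih' := ih (fun i j h => hL i j (by omega)) (fun i j h => hU i j (by omega))
    have h1 : ∑ i ∈ range (N + 1), (H i (N - i) + V i (N - i) + D i (N - i)) = 0 := by
      refine sum_eq_zero fun i hi => ?_
      have hi' : i ≤ N := by simpa [Nat.lt_succ_iff] using hi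
      have := hL i (N - i) (by omega)
      rwa [Nat.cast_sub hi'] at this
    have h2 : ∑ i ∈ range N, (V (i + 1) (N - 1 - i) + H i (N - i) + D i (N - 1 - i)) = 0 := by
      refine sum_eq_zero fun i hi => ?_
      have hi' : i < N := by simpa using hi
      have := hU i (N - 1 - i) (by omega)
      have e : ((N - 1 - i : ℕ) : ℤ) = (N : ℤ) - 1 - i := by omega
      rw [e] at this
      rwa [show (N : ℤ) - 1 - i + 1 = N - i by ring] at this
    rw [sum_add_distrib, sum_add_distrib] at h1 h2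
    rw [sum_range_succ (fun i : ℕ => H i ((N : ℤ) - i)), sum_range_succ' (fun i : ℕ => V i ((N : ℤ) - i))] at h1
    have e3 : ∑ i ∈ range (N + 1), D i (((N + 1 : ℕ) : ℤ) - 1 - i) =
        ∑ i ∈ range (N + 1), D i ((N : ℤ) - i) := by
      refine sum_congr rfl fun i _ => ?_
      congr 1
      push_cast
      ring
    have e4 : ∑ i ∈ range N, V ((i + 1 : ℕ) : ℤ) ((N : ℤ) - ((i + 1 : ℕ) : ℤ)) =
        ∑ i ∈ range N, V (i + 1) ((N : ℤ) - 1 - i) := by
      refine sum_congr rfl fun i _ => ?_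
      push_cast
      congr 1
      ring
    rw [sum_range_succ (fun i : ℕ => H i 0), sum_range_succ (fun j : ℕ => V 0 j), e3]
    rw [e4] at h1
    simp only [Nat.cast_zero, sub_zero, sub_self] at h1
    generalize (∑ i ∈ range (N + 1), D i ((N : ℤ) - i)) = X at *
    generalize (∑ i ∈ range N, V (i + 1) ((N : ℤ) - 1 - i)) = Y at *
    generalize (∑ i ∈ range N, H i ((N : ℤ) - i)) = Z at *
    generalize (∑ i ∈ range N, D i ((N : ℤ) - 1 - i)) = W at *
    generalize (∑ i ∈ range N, H i 0) = P at *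
    generalize (∑ i ∈ range N, V 0 i) = Q at *
    generalize H N 0 = R at *
    generalize V 0 N = S at *
    clear hL hU ih e3 e4
    revert h1 h2 ih'
    revert X Y Z W P Q R S
    decide

/-- points of the big triangle -/
def InBig (N : ℕ) (a : Lat) : Prop := 0 ≤ a.1 ∧ 0 ≤ a.2 ∧ a.1 + a.2 ≤ N

theorem edge_sum (x y z : Fin 3) (h : ¬(x ≠ y ∧ x ≠ z ∧ y ≠ z)) :
    (if (x = 0 ∧ y = 1) ∨ (x = 1 ∧ y = 0) then (1 : ZMod 2) else 0) +
      (if (x = 0 ∧ z = 1) ∨ (x = 1 ∧ z = 0) then (1 : ZMod 2) else 0) +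
      (if (y = 0 ∧ z = 1) ∨ (y = 1 ∧ z = 0) then (1 : ZMod 2) else 0) = 0 := by
  revert h
  revert x y z
  decide

/-- Sperner's lemma -/
theorem sperner (N : ℕ) (l : Lat → Fin 3)
    (h0 : ∀ i : ℤ, 0 ≤ i → i ≤ N → l (i, 0) ≠ 2)
    (h1 : ∀ j : ℤ, 0 ≤ j → j ≤ N → l (0, j) ≠ 1)
    (h2 : ∀ i : ℤ, 0 ≤ i → i ≤ N → l (i, N - i) ≠ 0) :
    ∃ t : Tri, InBig N (w1 t) ∧ InBig N (w2 t) ∧ InBig N (w3 t) ∧
      l (w1 t) ≠ l (w2 t) ∧ l (w1 t) ≠ l (w3 t) ∧ l (w2 t) ≠ l (w3 t) := by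
  by_contra hcon
  set ψ : Lat → Lat → ZMod 2 := fun a b =>
    if (l a = 0 ∧ l b = 1) ∨ (l a = 1 ∧ l b = 0) then 1 else 0 with hψ
  have hsym : ∀ a b, ψ a b = ψ b a := by
    intro a b
    simp only [hψ]
    congr 1
    exact propext ⟨by tauto, by tauto⟩
  have hL : ∀ i j : ℕ, i + j + 1 ≤ N →
      ψ ((i : ℤ), (j : ℤ)) ((i : ℤ) + 1, (j : ℤ)) + ψ ((i : ℤ), (j : ℤ)) ((i : ℤ), (j : ℤ) + 1) +
        ψ ((i : ℤ) + 1, (j : ℤ)) ((i : ℤ), (j : ℤ) + 1) = 0 := by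
    intro i j hij
    refine edge_sum _ _ _ ?_
    rintro ⟨e1, e2, e3⟩
    refine hcon ⟨((i, j), false), ?_, ?_, ?_, ?_, ?_, ?_⟩
    · simp only [InBig, w1]; simp; omega
    · simp only [InBig, w2]; simp; omega
    · simp only [InBig, w3]; simp; omega
    · simpa [w1, w2] using e1
    · simpa [w1, w3] using e2
    · simpa [w2, w3] using e3
  have hU : ∀ i j : ℕ, i + j + 2 ≤ N →
      ψ ((i : ℤ) + 1, (j : ℤ)) ((i : ℤ) + 1, (j : ℤ) + 1) +
        ψ ((i : ℤ), (j : ℤ) + 1) ((i : ℤ) + 1, (j : ℤ) + 1) +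
        ψ ((i : ℤ) + 1, (j : ℤ)) ((i : ℤ), (j : ℤ) + 1) = 0 := by
    intro i j hij
    rw [hsym ((i : ℤ) + 1, (j : ℤ)) ((i : ℤ) + 1, (j : ℤ) + 1),
      hsym ((i : ℤ), (j : ℤ) + 1) ((i : ℤ) + 1, (j : ℤ) + 1)]
    refine edge_sum _ _ _ ?_
    rintro ⟨e1, e2, e3⟩
    refine hcon ⟨((i, j), true), ?_, ?_, ?_, ?_, ?_, ?_⟩
    · simp only [InBig, w1]; simp; omega
    · simp only [InBig, w2]; simp; omega
    · simp only [InBig, w3]; simp; omega
    · simpa [w1, w2] using e1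
    · simpa [w1, w3] using e2
    · simpa [w2, w3] using e3
  have key := stokes_big (fun x y => ψ (x, y) (x + 1, y)) (fun x y => ψ (x, y) (x, y + 1))
    (fun x y => ψ (x + 1, y) (x, y + 1)) N hL hU
  have z2 : ∑ j ∈ range N, ψ (0, (j : ℤ)) (0, (j : ℤ) + 1) = 0 := by
    refine sum_eq_zero fun j hj => ?_
    have hj' : j < N := by simpa using hj
    have a1 := h1 j (by omega) (by omega)
    have a2 := h1 (j + 1) (by omega) (by omega)
    simp only [hψ]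
    rw [if_neg]
    tauto
  have z3 : ∑ i ∈ range N, ψ ((i : ℤ) + 1, (N : ℤ) - 1 - i) ((i : ℤ), (N : ℤ) - 1 - i + 1) = 0 := by
    refine sum_eq_zero fun j hj => ?_
    have hj' : j < N := by simpa using hj
    have a1 := h2 (j + 1) (by omega) (by omega)
    have a2 := h2 j (by omega) (by omega)
    rw [show (N : ℤ) - (j + 1) = N - 1 - j by ring] at a1
    rw [show (N : ℤ) - j = N - 1 - j + 1 by ring] at a2
    simp only [hψ]
    rw [if_neg]
    tauto
  have z1 : ∑ i ∈ range N, ψ ((i : ℤ), 0) ((i : ℤ) + 1, 0) = 1 := by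
    have e : ∀ i ∈ range N, ψ ((i : ℤ), 0) ((i : ℤ) + 1, 0) =
        (fun k : ℕ => if l ((k : ℤ), 0) = 1 then (1 : ZMod 2) else 0) (i + 1) -
          (fun k : ℕ => if l ((k : ℤ), 0) = 1 then (1 : ZMod 2) else 0) i := by
      intro i hi
      have hi' : i < N := by simpa using hi
      have a1 := h0 i (by omega) (by omega)
      have a2 := h0 (i + 1) (by omega) (by omega)
      simp only [hψ]
      push_cast
      revert a1 a2
      generalize l ((i : ℤ), 0) = x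
      generalize l ((i : ℤ) + 1, 0) = y
      revert x y
      decide
    rw [sum_congr rfl e]
    have tel := sum_range_sub (fun k : ℕ => if l ((k : ℤ), 0) = 1 then (1 : ZMod 2) else 0) N
    refine tel.trans ?_
    have b0 := h0 0 le_rfl (by omega)
    have b1 := h1 0 le_rfl (by omega)
    have c0 := h0 N (by omega) le_rfl
    have c1 := h2 N (by omega) le_rfl
    rw [sub_self] at c1
    simp only [Nat.cast_zero]
    revert b0 b1 c0 c1
    generalize l (0, 0) = x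
    generalize l ((N : ℤ), 0) = y
    revert x y
    decide
  rw [z1, z2, z3] at key
  exact absurd key (by decide)

theorem pos_sub (δ : ℝ) (a b : Lat) : pos δ a - pos δ b = pos δ (a - b) := by
  simp only [pos, Prod.fst_sub, Prod.snd_sub]
  push_cast
  ring

theorem normSq_pos (δ : ℝ) (a : Lat) :
    ‖pos δ a‖ ^ 2 = δ ^ 2 * ((a.1 : ℝ) ^ 2 + a.1 * a.2 + (a.2 : ℝ) ^ 2) := by
  rw [← Complex.normSq_eq_norm_sq]
  simp only [pos, om, Complex.normSq_apply, Complex.mul_re, Complex.mul_im, Complex.add_re,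
    Complex.add_im, Complex.ofReal_re, Complex.ofReal_im, Complex.intCast_re,
    Complex.intCast_im]
  have h3 : Real.sqrt 3 ^ 2 = 3 := Real.sq_sqrt (by norm_num)
  linear_combination (1 / 4 * δ ^ 2 * (a.2 : ℝ) ^ 2) * h3

theorem pos_lower (δ : ℝ) (_hδ : 0 < δ) (a : Lat) (x : ℝ)
    (h : x ^ 2 ≤ (a.1 : ℝ) ^ 2 + a.1 * a.2 + (a.2 : ℝ) ^ 2) : δ * x ≤ ‖pos δ a‖ := by
  refine le_of_sq_le_sq ?_ (norm_nonneg _)
  rw [normSq_pos, mul_pow]
  exact mul_le_mul_of_nonneg_left h (by positivity)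

theorem pos_upper (δ : ℝ) (hδ : 0 < δ) (a : Lat) (x : ℝ) (hx : 0 ≤ x)
    (h : (a.1 : ℝ) ^ 2 + a.1 * a.2 + (a.2 : ℝ) ^ 2 ≤ x ^ 2) : ‖pos δ a‖ ≤ δ * x := by
  refine le_of_sq_le_sq ?_ (by positivity)
  rw [normSq_pos, mul_pow]
  exact mul_le_mul_of_nonneg_left h (by positivity)

theorem norm_pos_adj (δ : ℝ) (hδ : 0 < δ) (a b : Lat) (h : adj a b) :
    ‖pos δ b - pos δ a‖ = δ := by
  rw [pos_sub]
  have hsq : ‖pos δ (b - a)‖ ^ 2 = δ ^ 2 := by
    rw [normSq_pos]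
    unfold adj at h
    simp only [Finset.mem_insert, Finset.mem_singleton] at h
    rcases h with h | h | h | h | h | h <;> rw [h] <;> norm_num
  exact (sq_eq_sq₀ (norm_nonneg _) hδ.le).1 hsq

theorem norm_pos_big (δ : ℝ) (hδ : 0 < δ) (N : ℕ) (a : Lat) (h : InBig N a) :
    ‖pos δ a‖ ≤ δ * N := by
  obtain ⟨h1, h2, h3⟩ := h
  have h1' : (0 : ℝ) ≤ a.1 := by exact_mod_cast h1
  have h2' : (0 : ℝ) ≤ a.2 := by exact_mod_cast h2
  have h3' : (a.1 : ℝ) + a.2 ≤ N := by exact_mod_cast h3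
  refine pos_upper δ hδ a N (by positivity) ?_
  nlinarith [mul_nonneg h1' h2']

theorem adj_symm {a b : Lat} (h : adj a b) : adj b a := by
  unfold adj at *
  simp only [Finset.mem_insert, Finset.mem_singleton] at *
  have e : a - b = -(b - a) := by abel
  rw [e]
  rcases h with h | h | h | h | h | h <;> rw [h] <;> simp

theorem adj_w12 (t : Tri) : adj (w1 t) (w2 t) := by
  obtain ⟨⟨x, y⟩, b⟩ := t
  cases b <;> simp [adj, w1, w2]

theorem adj_w13 (t : Tri) : adj (w1 t) (w3 t) := by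
  obtain ⟨⟨x, y⟩, b⟩ := t
  cases b <;> simp [adj, w1, w3]

theorem adj_w23 (t : Tri) : adj (w2 t) (w3 t) := by
  obtain ⟨⟨x, y⟩, b⟩ := t
  cases b <;> simp [adj, w2, w3]

/-- one step inside a monochromatic component of the big triangle -/
def Step (c : ℂ → Fin 6) (δ : ℝ) (N : ℕ) (a b : Lat) : Prop :=
  adj a b ∧ c (pos δ a) = c (pos δ b) ∧ InBig N a ∧ InBig N b

/-- the same monochromatic component -/
def Comp (c : ℂ → Fin 6) (δ : ℝ) (N : ℕ) (a b : Lat) : Prop :=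
  Relation.ReflTransGen (Step c δ N) a b

theorem Step.symm {c : ℂ → Fin 6} {δ : ℝ} {N : ℕ} {a b : Lat} (h : Step c δ N a b) :
    Step c δ N b a :=
  ⟨adj_symm h.1, h.2.1.symm, h.2.2.2, h.2.2.1⟩

theorem Comp.symm {c : ℂ → Fin 6} {δ : ℝ} {N : ℕ} {a b : Lat} (h : Comp c δ N a b) :
    Comp c δ N b a := by
  unfold Comp at *
  induction h with
  | refl => exact Relation.ReflTransGen.refl
  | tail _ h2 ih => exact Relation.ReflTransGen.head h2.symm ih

theorem Comp.trans {c : ℂ → Fin 6} {δ : ℝ} {N : ℕ} {a b d : Lat} (h : Comp c δ N a b)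
    (h' : Comp c δ N b d) : Comp c δ N a d :=
  Relation.ReflTransGen.trans h h'

/-- monochromatic components have diameter less than one -/
theorem Comp.near {c : ℂ → Fin 6} {η δ : ℝ} (hη1 : η ≤ 1 / 10) (hδ : 0 < δ)
    (hδ1 : δ ≤ η / 4) (hc : Good c η) {N : ℕ} (hN : δ * N ≤ 4) {a b : Lat} (ha : InBig N a)
    (h : Comp c δ N a b) :
    ‖pos δ b - pos δ a‖ < 1 ∧ InBig N b ∧ c (pos δ b) = c (pos δ a) := by
  unfold Comp at h
  induction h with
  | refl => exact ⟨by simp, ha, rfl⟩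
  | @tail b d _ h2 ih =>
    obtain ⟨i1, i2, i3⟩ := ih
    obtain ⟨s1, s2, s3, s4⟩ := h2
    refine ⟨?_, s4, by rw [← s2, i3]⟩
    by_contra hcon
    push Not at hcon
    have e1 := norm_pos_adj δ hδ b d s1
    have e2 : ‖pos δ d - pos δ a‖ ≤ ‖pos δ d - pos δ b‖ + ‖pos δ b - pos δ a‖ :=
      norm_sub_le_norm_sub_add_norm_sub _ _ _
    have n1 := norm_pos_big δ hδ N a ha
    have n2 := norm_pos_big δ hδ N d s4
    refine hc (pos δ d) (pos δ a) (by linarith) (by linarith) ?_ (by rw [← s2, i3])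
    rw [abs_le]
    constructor <;> linarith

/-- a point of the big triangle is far from one of the sides -/
theorem far_side {δ : ℝ} (hδ : 0 < δ) {N : ℕ} (hN : 7 / 2 ≤ δ * N) (a b0 b1 b2 : Lat)
    (h0 : b0.2 = 0) (h1 : b1.1 = 0) (h2 : b2.1 + b2.2 = N)
    (n0 : ‖pos δ b0 - pos δ a‖ < 1) (n1 : ‖pos δ b1 - pos δ a‖ < 1)
    (n2 : ‖pos δ b2 - pos δ a‖ < 1) : False := by
  rw [pos_sub] at n0 n1 n2
  have m0 := pos_lower δ hδ (b0 - a) (6 / 7 * (a.2 : ℝ)) (by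
    have e : ((b0 - a).2 : ℝ) = -(a.2 : ℝ) := by
      simp [h0]
    rw [e]
    nlinarith [sq_nonneg (((b0 - a).1 : ℝ) - (a.2 : ℝ) / 2), sq_nonneg (a.2 : ℝ)])
  have m1 := pos_lower δ hδ (b1 - a) (6 / 7 * (a.1 : ℝ)) (by
    have e : ((b1 - a).1 : ℝ) = -(a.1 : ℝ) := by
      simp [h1]
    rw [e]
    nlinarith [sq_nonneg (((b1 - a).2 : ℝ) - (a.1 : ℝ) / 2), sq_nonneg (a.1 : ℝ)])
  have m2 := pos_lower δ hδ (b2 - a) (6 / 7 * ((N : ℝ) - a.1 - a.2)) (by
    have e : ((b2 - a).1 : ℝ) + ((b2 - a).2 : ℝ) = (N : ℝ) - a.1 - a.2 := by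
      have : (b2 - a).1 + (b2 - a).2 = (N : ℤ) - a.1 - a.2 := by
        simp only [Prod.fst_sub, Prod.snd_sub]
        linarith
      exact_mod_cast this
    rw [← e]
    nlinarith [sq_nonneg (((b2 - a).1 : ℝ) - ((b2 - a).2 : ℝ)),
      sq_nonneg (((b2 - a).1 : ℝ) + ((b2 - a).2 : ℝ))])
  nlinarith

/-- existence of a trichromatic lattice triangle near the origin -/
theorem exists_tri (c : ℂ → Fin 6) (η δ : ℝ) (hη : 0 < η) (hη1 : η ≤ 1 / 10) (hδ : 0 < δ)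
    (hδ1 : δ ≤ η / 4) (hc : Good c η) :
    ∃ t : Tri, c (pos δ (w1 t)) ≠ c (pos δ (w2 t)) ∧ c (pos δ (w1 t)) ≠ c (pos δ (w3 t)) ∧
      c (pos δ (w2 t)) ≠ c (pos δ (w3 t)) ∧ ‖pos δ (w1 t)‖ ≤ 4 ∧ ‖pos δ (w2 t)‖ ≤ 4 ∧
      ‖pos δ (w3 t)‖ ≤ 4 := by
  classical
  obtain ⟨N, hN1, hN2⟩ : ∃ N : ℕ, 7 / 2 ≤ δ * N ∧ δ * N ≤ 4 := by
    refine ⟨⌈7 / 2 / δ⌉₊, ?_, ?_⟩
    · have := Nat.le_ceil (7 / 2 / δ)
      rw [div_le_iff₀ hδ] at this
      linarith
    · have := Nat.ceil_lt_add_one (a := 7 / 2 / δ) (by positivity)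
      have h2 : δ * (⌈7 / 2 / δ⌉₊ : ℝ) < δ * (7 / 2 / δ + 1) := by
        exact mul_lt_mul_of_pos_left this hδ
      have h3 : δ * (7 / 2 / δ + 1) = 7 / 2 + δ := by field_simp
      rw [h3] at h2
      linarith
  set l : Lat → Fin 3 := fun a =>
    if ¬∃ b, Comp c δ N a b ∧ b.2 = 0 then 2
    else if ¬∃ b, Comp c δ N a b ∧ b.1 = 0 then 1 else 0 with hl
  have hcomp : ∀ a b, Comp c δ N a b → l a = l b := by
    intro a b h
    have e1 : (∃ d, Comp c δ N a d ∧ d.2 = 0) ↔ ∃ d, Comp c δ N b d ∧ d.2 = 0 :=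
      ⟨fun ⟨d, h1, h2⟩ => ⟨d, h.symm.trans h1, h2⟩, fun ⟨d, h1, h2⟩ => ⟨d, h.trans h1, h2⟩⟩
    have e2 : (∃ d, Comp c δ N a d ∧ d.1 = 0) ↔ ∃ d, Comp c δ N b d ∧ d.1 = 0 :=
      ⟨fun ⟨d, h1, h2⟩ => ⟨d, h.symm.trans h1, h2⟩, fun ⟨d, h1, h2⟩ => ⟨d, h.trans h1, h2⟩⟩
    simp only [hl, e1, e2]
  obtain ⟨t, b1, b2, b3, l12, l13, l23⟩ := sperner N l
    (by
      intro i hi hi2
      simp only [hl]
      rw [if_neg (not_not.2 ⟨(i, 0), Relation.ReflTransGen.refl, rfl⟩)]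
      split_ifs <;> decide)
    (by
      intro j hj hj2
      simp only [hl]
      split_ifs with h1 h2
      · decide
      · exact absurd ⟨(0, j), Relation.ReflTransGen.refl, rfl⟩ h2
      · decide)
    (by
      intro i hi hi2
      simp only [hl]
      by_cases h1 : ∃ b, Comp c δ N ((i, (N : ℤ) - i) : Lat) b ∧ b.2 = 0
      · rw [if_neg (not_not.2 h1)]
        by_cases h2 : ∃ b, Comp c δ N ((i, (N : ℤ) - i) : Lat) b ∧ b.1 = 0
        · exfalso
          obtain ⟨d1, p1, q1⟩ := h1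
          obtain ⟨d2, p2, q2⟩ := h2
          have hb : InBig N ((i, (N : ℤ) - i) : Lat) := ⟨hi, by simp; omega, by simp⟩
          exact far_side hδ hN1 (i, (N : ℤ) - i) d1 d2 (i, (N : ℤ) - i) q1 q2 (by simp)
            (Comp.near hη1 hδ hδ1 hc hN2 hb p1).1 (Comp.near hη1 hδ hδ1 hc hN2 hb p2).1 (by simp)
        · rw [if_pos h2]
          decide
      · rw [if_pos h1]
        decide)
  have n1 := norm_pos_big δ hδ N _ b1
  have n2 := norm_pos_big δ hδ N _ b2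
  have n3 := norm_pos_big δ hδ N _ b3
  refine ⟨t, fun e => l12 ?_, fun e => l13 ?_, fun e => l23 ?_, by linarith, by linarith,
    by linarith⟩
  · exact hcomp _ _ (Relation.ReflTransGen.single ⟨adj_w12 t, e, b1, b2⟩)
  · exact hcomp _ _ (Relation.ReflTransGen.single ⟨adj_w13 t, e, b1, b3⟩)
  · exact hcomp _ _ (Relation.ReflTransGen.single ⟨adj_w23 t, e, b2, b3⟩)

end Pool.Agent.ClosedPlane.Sp
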