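import Pool.Agent.ClosedPlane.Defs

namespace Pool.Agent.ClosedPlane

open Complex

theorem sum_add_sum_eq_zero {α : Type*} [DecidableEq α] (X Y : Finset α) (f : α → ZMod 2)
    (h : ∀ a, (a ∈ X ↔ a ∈ Y) ∨ f a = 0) : ∑ a ∈ X, f a + ∑ a ∈ Y, f a = 0 := by
  have hX : ∑ a ∈ X, f a = ∑ a ∈ X ∩ Y, f a := by
    symm
    apply Finset.sum_subset Finset.inter_subset_left
    intro a ha hn
    rcases h a with h1 | h1
    · exact absurd (Finset.mem_inter.2 ⟨ha, h1.1 ha⟩) hn
    · exact h1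
  have hY : ∑ a ∈ Y, f a = ∑ a ∈ X ∩ Y, f a := by
    symm
    apply Finset.sum_subset Finset.inter_subset_right
    intro a ha hn
    rcases h a with h1 | h1
    · exact absurd (Finset.mem_inter.2 ⟨h1.2 ha, ha⟩) hn
    · exact h1
  rw [hX, hY]
  exact CharTwo.add_self_eq_zero _

/-- Stokes modulo two -/
theorem stokes (B : Finset Tri) (ψ : Lat → Lat → ZMod 2) (hs : ∀ a b, ψ a b = ψ b a)
    (h1 : ∀ a : Lat, ((a, false) ∈ B ↔ (a - (0, 1), true) ∈ B) ∨ ψ a (a + (1, 0)) = 0)
    (h2 : ∀ a : Lat, ((a, false) ∈ B ↔ (a - (1, 0), true) ∈ B) ∨ ψ a (a + (0, 1)) = 0)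
    (h3 : ∀ a : Lat, ((a, false) ∈ B ↔ (a, true) ∈ B) ∨ ψ (a + (1, 0)) (a + (0, 1)) = 0) :
    ∑ t ∈ B, dpsi ψ t = 0 := by
  classical
  set BL : Finset Lat := (B.filter (fun t => t.2 = false)).image Prod.fst with hBL
  set BU : Finset Lat := (B.filter (fun t => t.2 = true)).image Prod.fst with hBU
  have mL : ∀ a, a ∈ BL ↔ (a, false) ∈ B := by
    intro a
    simp [hBL]
  have mU : ∀ a, a ∈ BU ↔ (a, true) ∈ B := by
    intro a
    simp [hBU]
  have hsplit : ∑ t ∈ B, dpsi ψ t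
      = ∑ a ∈ BL, dpsi ψ (a, false) + ∑ a ∈ BU, dpsi ψ (a, true) := by
    rw [← Finset.sum_filter_add_sum_filter_not B (fun t => t.2 = false)]
    congr 1
    · rw [hBL, Finset.sum_image]
      · apply Finset.sum_congr rfl
        intro t ht
        have := (Finset.mem_filter.1 ht).2
        congr 1
        exact Prod.ext rfl this
      · intro t ht t' ht' htt
        have e1 := (Finset.mem_filter.1 ht).2
        have e2 := (Finset.mem_filter.1 ht').2
        exact Prod.ext htt (e1.trans e2.symm)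
    · have : (B.filter (fun t => ¬ t.2 = false)) = B.filter (fun t => t.2 = true) := by
        apply Finset.filter_congr
        intro t _
        simp
      rw [this, hBU, Finset.sum_image]
      · apply Finset.sum_congr rfl
        intro t ht
        have := (Finset.mem_filter.1 ht).2
        congr 1
        exact Prod.ext rfl this
      · intro t ht t' ht' htt
        have e1 := (Finset.mem_filter.1 ht).2
        have e2 := (Finset.mem_filter.1 ht').2
        exact Prod.ext htt (e1.trans e2.symm)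
  have hL : ∀ a : Lat, dpsi ψ (a, false)
      = ψ a (a + (1, 0)) + ψ a (a + (0, 1)) + ψ (a + (1, 0)) (a + (0, 1)) := by
    intro a; rfl
  have hU : ∀ a : Lat, dpsi ψ (a, true)
      = ψ (a + (1, 0)) (a + (1, 0) + (0, 1)) + ψ (a + (0, 1)) (a + (0, 1) + (1, 0))
        + ψ (a + (1, 0)) (a + (0, 1)) := by
    intro a
    have e1 : a + (1, 0) + (0, 1) = a + (1, 1) := by ext <;> simp
    have e2 : a + (0, 1) + (1, 0) = a + (1, 1) := by ext <;> simp
    rw [e1, e2, hs (a + (1, 0)) (a + (1, 1)), hs (a + (0, 1)) (a + (1, 1))]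
    rfl
  rw [hsplit, Finset.sum_congr rfl (fun a _ => hL a), Finset.sum_congr rfl (fun a _ => hU a)]
  simp only [Finset.sum_add_distrib]
  have k1 : ∑ a ∈ BL, ψ a (a + (1, 0)) + ∑ a ∈ BU, ψ (a + (0, 1)) (a + (0, 1) + (1, 0)) = 0 := by
    have : ∑ a ∈ BU, ψ (a + (0, 1)) (a + (0, 1) + (1, 0))
        = ∑ a ∈ BU.image (fun a => a + (0, 1)), ψ a (a + (1, 0)) :=
      (Finset.sum_image (f := fun a : Lat => ψ a (a + (1, 0)))
        (fun x _ y _ hxy => add_right_cancel hxy)).symm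
    rw [this]
    apply sum_add_sum_eq_zero
    intro a
    rcases h1 a with h | h
    · left
      rw [mL, h, Finset.mem_image]
      constructor
      · intro hh
        exact ⟨a - (0, 1), (mU _).2 hh, by simp⟩
      · rintro ⟨b, hb, rfl⟩
        simpa using (mU b).1 hb
    · right; exact h
  have k2 : ∑ a ∈ BL, ψ a (a + (0, 1)) + ∑ a ∈ BU, ψ (a + (1, 0)) (a + (1, 0) + (0, 1)) = 0 := by
    have : ∑ a ∈ BU, ψ (a + (1, 0)) (a + (1, 0) + (0, 1))
        = ∑ a ∈ BU.image (fun a => a + (1, 0)), ψ a (a + (0, 1)) :=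
      (Finset.sum_image (f := fun a : Lat => ψ a (a + (0, 1)))
        (fun x _ y _ hxy => add_right_cancel hxy)).symm
    rw [this]
    apply sum_add_sum_eq_zero
    intro a
    rcases h2 a with h | h
    · left
      rw [mL, h, Finset.mem_image]
      constructor
      · intro hh
        exact ⟨a - (1, 0), (mU _).2 hh, by simp⟩
      · rintro ⟨b, hb, rfl⟩
        simpa using (mU b).1 hb
    · right; exact h
  have k3 : ∑ a ∈ BL, ψ (a + (1, 0)) (a + (0, 1)) + ∑ a ∈ BU, ψ (a + (1, 0)) (a + (0, 1)) = 0 := by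
    apply sum_add_sum_eq_zero
    intro a
    rcases h3 a with h | h
    · left; rw [mL, mU, h]
    · right; exact h
  linear_combination k1 + k2 + k3

theorem norm_pos_sq (δ : ℝ) (a : Lat) :
    ‖pos δ a‖ ^ 2 = δ ^ 2 * ((a.1 : ℝ) ^ 2 + a.1 * a.2 + (a.2 : ℝ) ^ 2) := by
  have h3 : Real.sqrt 3 * Real.sqrt 3 = 3 := Real.mul_self_sqrt (by norm_num)
  rw [← Complex.normSq_eq_norm_sq, pos, om, Complex.normSq_mul, Complex.normSq_apply,
    Complex.normSq_apply]
  simp
  linear_combination (δ ^ 2 * (a.2 : ℝ) ^ 2 / 4) * h3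

theorem pos_sub (δ : ℝ) (a b : Lat) : pos δ a - pos δ b = pos δ (a - b) := by
  simp only [pos, Prod.fst_sub, Prod.snd_sub]
  push_cast
  ring

theorem pos_add (δ : ℝ) (a b : Lat) : pos δ (a + b) = pos δ a + pos δ b := by
  simp only [pos, Prod.fst_add, Prod.snd_add]
  push_cast
  ring

theorem adj_symm {a b : Lat} (h : adj a b) : adj b a := by
  unfold adj at *
  have : a - b = -(b - a) := by abel
  rw [this]
  generalize b - a = d at h
  revert h
  simp only [Finset.mem_insert, Finset.mem_singleton]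
  rintro (h | h | h | h | h | h) <;> subst h <;> simp

theorem norm_adj {δ : ℝ} (hδ : 0 < δ) {a b : Lat} (h : adj a b) :
    ‖pos δ a - pos δ b‖ = δ := by
  have h' := adj_symm h
  unfold adj at h'
  have hsq : ‖pos δ a - pos δ b‖ ^ 2 = δ ^ 2 := by
    rw [pos_sub, norm_pos_sq]
    generalize a - b = d at h'
    revert h'
    simp only [Finset.mem_insert, Finset.mem_singleton]
    rintro (h | h | h | h | h | h) <;> subst h <;> simp
  exact (pow_left_inj₀ (norm_nonneg _) hδ.le (by norm_num)).1 hsq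

/-- the triangles with all vertices within distance one of `x` -/
def ballSet (δ : ℝ) (x : Lat) : Set Tri :=
  {t | ‖pos δ (w1 t) - pos δ x‖ ≤ 1 ∧ ‖pos δ (w2 t) - pos δ x‖ ≤ 1 ∧ ‖pos δ (w3 t) - pos δ x‖ ≤ 1}

theorem ballSet_finite {δ : ℝ} (hδ : 0 < δ) (x : Lat) : (ballSet δ x).Finite := by
  obtain ⟨N, hN⟩ := exists_nat_ge (2 / δ + 1)
  have hsub : ballSet δ x ⊆
      (Set.Icc (x.1 - N) (x.1 + N) ×ˢ Set.Icc (x.2 - N) (x.2 + N)) ×ˢ (Set.univ : Set Bool) := by
    rintro ⟨a, b⟩ ⟨-, h2, -⟩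
    rw [pos_sub] at h2
    have h2' : ‖pos δ (w2 (a, b) - x)‖ ^ 2 ≤ 1 := by
      have := norm_nonneg (pos δ (w2 (a, b) - x))
      nlinarith
    rw [norm_pos_sq] at h2'
    have e : w2 (a, b) - x = (a.1 + 1 - x.1, a.2 - x.2) := by
      simp [w2, Prod.ext_iff]
    rw [e] at h2'
    simp only at h2'
    set p : ℝ := ((a.1 + 1 - x.1 : ℤ) : ℝ) with hp
    set q : ℝ := ((a.2 - x.2 : ℤ) : ℝ) with hq
    have hN' : 2 ≤ (N - 1 : ℝ) * δ := by
      have : 2 / δ ≤ N - 1 := by linarith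
      rwa [div_le_iff₀ hδ] at this
    have hN1 : (0 : ℝ) ≤ N - 1 := by
      have : 0 < 2 / δ := by positivity
      linarith
    have hp2 : (δ * p) ^ 2 ≤ 4 := by nlinarith [sq_nonneg (δ * p + 2 * (δ * q))]
    have hq2 : (δ * q) ^ 2 ≤ 4 := by nlinarith [sq_nonneg (δ * q + 2 * (δ * p))]
    have hp3 : |δ * p| ≤ 2 := abs_le_of_sq_le_sq (by linarith) (by norm_num)
    have hq3 : |δ * q| ≤ 2 := abs_le_of_sq_le_sq (by linarith) (by norm_num)
    rw [abs_le] at hp3 hq3
    have hp4 : -(N - 1 : ℝ) ≤ p ∧ p ≤ N - 1 := by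
      constructor <;> by_contra hcon <;> push Not at hcon <;> nlinarith
    have hq4 : -(N - 1 : ℝ) ≤ q ∧ q ≤ N - 1 := by
      constructor <;> by_contra hcon <;> push Not at hcon <;> nlinarith
    rw [hp] at hp4
    rw [hq] at hq4
    have a1 : -((N : ℤ) - 1) ≤ a.1 + 1 - x.1 := by exact_mod_cast hp4.1
    have a2 : a.1 + 1 - x.1 ≤ (N : ℤ) - 1 := by exact_mod_cast hp4.2
    have a3 : -((N : ℤ) - 1) ≤ a.2 - x.2 := by exact_mod_cast hq4.1
    have a4 : a.2 - x.2 ≤ (N : ℤ) - 1 := by exact_mod_cast hq4.2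
    simp only [Set.mem_prod, Set.mem_Icc, Set.mem_univ, and_true]
    omega
  exact Set.Finite.subset (((Set.finite_Icc _ _).prod (Set.finite_Icc _ _)).prod Set.finite_univ) hsub

open Classical in
/-- `ballSet` as a finset -/
noncomputable def ball (δ : ℝ) (x : Lat) : Finset Tri :=
  if h : (ballSet δ x).Finite then h.toFinset else ∅

theorem mem_ball {δ : ℝ} (hδ : 0 < δ) {x : Lat} {t : Tri} :
    t ∈ ball δ x ↔ ‖pos δ (w1 t) - pos δ x‖ ≤ 1 ∧ ‖pos δ (w2 t) - pos δ x‖ ≤ 1 ∧
      ‖pos δ (w3 t) - pos δ x‖ ≤ 1 := by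
  unfold ball
  rw [dif_pos (ballSet_finite hδ x)]
  simp [ballSet]

/-- Stokes for a disc: the edge function has to vanish near the unit circle -/
theorem stokes_ball {δ : ℝ} (hδ : 0 < δ) (x : Lat) (ψ : Lat → Lat → ZMod 2)
    (hs : ∀ a b, ψ a b = ψ b a)
    (h : ∀ a b, adj a b → 1 - δ ≤ ‖pos δ a - pos δ x‖ → ‖pos δ a - pos δ x‖ ≤ 1 →
      1 - δ ≤ ‖pos δ b - pos δ x‖ → ‖pos δ b - pos δ x‖ ≤ 1 → ψ a b = 0) :
    ∑ t ∈ ball δ x, dpsi ψ t = 0 := by
  -- an edge `a b` with third vertices `p`, `q`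
  have key : ∀ a b p q : Lat, adj a b → adj a p → adj b p → adj a q → adj b q →
      ((‖pos δ a - pos δ x‖ ≤ 1 ∧ ‖pos δ b - pos δ x‖ ≤ 1 ∧ ‖pos δ p - pos δ x‖ ≤ 1) ↔
        (‖pos δ a - pos δ x‖ ≤ 1 ∧ ‖pos δ b - pos δ x‖ ≤ 1 ∧ ‖pos δ q - pos δ x‖ ≤ 1)) ∨
      ψ a b = 0 := by
    intro a b p q hab hap hbp haq hbq
    by_cases hiff : ((‖pos δ a - pos δ x‖ ≤ 1 ∧ ‖pos δ b - pos δ x‖ ≤ 1 ∧
        ‖pos δ p - pos δ x‖ ≤ 1) ↔
        (‖pos δ a - pos δ x‖ ≤ 1 ∧ ‖pos δ b - pos δ x‖ ≤ 1 ∧ ‖pos δ q - pos δ x‖ ≤ 1))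
    · exact Or.inl hiff
    · right
      have tri : ∀ u v : Lat, adj u v →
          ‖pos δ v - pos δ x‖ ≤ ‖pos δ u - pos δ x‖ + δ := by
        intro u v huv
        have e : pos δ v - pos δ x = (pos δ u - pos δ x) - (pos δ u - pos δ v) := by ring
        rw [e]
        calc _ ≤ ‖pos δ u - pos δ x‖ + ‖pos δ u - pos δ v‖ := norm_sub_le _ _
          _ = _ := by rw [norm_adj hδ huv]
      have t1 := tri a p hap
      have t2 := tri b p hbp
      have t3 := tri a q haq
      have t4 := tri b q hbq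
      by_cases ha : ‖pos δ a - pos δ x‖ ≤ 1
      · by_cases hb : ‖pos δ b - pos δ x‖ ≤ 1
        · have hpq : ¬ (‖pos δ p - pos δ x‖ ≤ 1 ↔ ‖pos δ q - pos δ x‖ ≤ 1) := by
            intro hcon
            exact hiff (by simp only [ha, hb, true_and]; exact hcon)
          by_cases hp : ‖pos δ p - pos δ x‖ ≤ 1
          · have hq : ¬ ‖pos δ q - pos δ x‖ ≤ 1 := fun hq => hpq (iff_of_true hp hq)
            push Not at hq
            exact h a b hab (by linarith) ha (by linarith) hb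
          · push Not at hp
            exact h a b hab (by linarith) ha (by linarith) hb
        · exact absurd (by simp [hb]) hiff
      · exact absurd (by simp [ha]) hiff
  have adjs : ∀ (a d : Lat), d ∈ ({(1, 0), (0, 1), (-1, 1), (-1, 0), (0, -1), (1, -1)} : Finset Lat)
      → ∀ b, b = a + d → adj a b := by
    intro a d hd b hb
    unfold adj
    rw [hb]
    simpa using hd
  apply stokes _ _ hs
  · intro a
    have := key a (a + (1, 0)) (a + (0, 1)) (a + (1, -1))
      (adjs a (1, 0) (by simp) _ rfl) (adjs a (0, 1) (by simp) _ rfl)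
      (adjs _ (-1, 1) (by simp) _ (by ext <;> simp))
      (adjs a (1, -1) (by simp) _ rfl)
      (adjs _ (0, -1) (by simp) _ (by ext <;> simp))
    rcases this with h' | h'
    · left
      rw [mem_ball hδ, mem_ball hδ]
      have e1 : w1 (a, false) = a := rfl
      have e2 : w2 (a, false) = a + (1, 0) := rfl
      have e3 : w3 (a, false) = a + (0, 1) := rfl
      have e4 : w1 (a - (0, 1), true) = a + (1, 0) := by simp [w1, Prod.ext_iff]
      have e5 : w2 (a - (0, 1), true) = a + (1, -1) := by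
        simp only [w2, Prod.ext_iff]; constructor <;> simp; ring
      have e6 : w3 (a - (0, 1), true) = a := by simp [w3]
      rw [e1, e2, e3, e4, e5, e6]
      tauto
    · right; exact h'
  · intro a
    have := key a (a + (0, 1)) (a + (1, 0)) (a + (-1, 1))
      (adjs a (0, 1) (by simp) _ rfl) (adjs a (1, 0) (by simp) _ rfl)
      (adjs _ (1, -1) (by simp) _ (by ext <;> simp))
      (adjs a (-1, 1) (by simp) _ rfl)
      (adjs _ (-1, 0) (by simp) _ (by ext <;> simp))
    rcases this with h' | h'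
    · left
      rw [mem_ball hδ, mem_ball hδ]
      have e1 : w1 (a, false) = a := rfl
      have e2 : w2 (a, false) = a + (1, 0) := rfl
      have e3 : w3 (a, false) = a + (0, 1) := rfl
      have e4 : w1 (a - (1, 0), true) = a + (0, 1) := by simp [w1, Prod.ext_iff]
      have e5 : w2 (a - (1, 0), true) = a := by simp [w2]
      have e6 : w3 (a - (1, 0), true) = a + (-1, 1) := by
        simp only [w3, Prod.ext_iff]; constructor <;> simp; ring
      rw [e1, e2, e3, e4, e5, e6]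
      tauto
    · right; exact h'
  · intro a
    have := key (a + (1, 0)) (a + (0, 1)) a (a + (1, 1))
      (adjs _ (-1, 1) (by simp) _ (by ext <;> simp)) (adjs _ (-1, 0) (by simp) _ (by ext <;> simp))
      (adjs _ (0, -1) (by simp) _ (by ext <;> simp))
      (adjs _ (0, 1) (by simp) _ (by ext <;> simp))
      (adjs _ (1, 0) (by simp) _ (by ext <;> simp))
    rcases this with h' | h'
    · left
      rw [mem_ball hδ, mem_ball hδ]
      have e1 : w1 (a, false) = a := rfl
      have e2 : w2 (a, false) = a + (1, 0) := rfl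
      have e3 : w3 (a, false) = a + (0, 1) := rfl
      have e4 : w1 (a, true) = a + (1, 1) := rfl
      have e5 : w2 (a, true) = a + (1, 0) := rfl
      have e6 : w3 (a, true) = a + (0, 1) := rfl
      rw [e1, e2, e3, e4, e5, e6]
      tauto
    · right; exact h'

end Pool.Agent.ClosedPlane
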