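import Pool.Agent.ClosedPlane.Circle
import Pool.Agent.ClosedPlane.Sperner
import Pool.Agent.ClosedPlane.Stokes

namespace Pool.Agent.ClosedPlane

open Complex

/-- distance of the positions of two lattice points -/
noncomputable def D (δ : ℝ) (a b : Lat) : ℝ := ‖pos δ a - pos δ b‖

theorem D_comm (δ : ℝ) (a b : Lat) : D δ a b = D δ b a := norm_sub_rev _ _

theorem D_tri (δ : ℝ) (a b c : Lat) : D δ a c ≤ D δ a b + D δ b c := by
  unfold D
  have : pos δ a - pos δ c = (pos δ a - pos δ b) + (pos δ b - pos δ c) := by ring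
  rw [this]
  exact norm_add_le _ _

theorem D_self (δ : ℝ) (a : Lat) : D δ a a = 0 := by simp [D]

/-- vertices of a triangle -/
def V (t : Tri) (p : Lat) : Prop := p = w1 t ∨ p = w2 t ∨ p = w3 t

theorem adj12 (t : Tri) : adj (w1 t) (w2 t) := by
  obtain ⟨a, b⟩ := t
  cases b <;> simp [adj, w1, w2]

theorem adj13 (t : Tri) : adj (w1 t) (w3 t) := by
  obtain ⟨a, b⟩ := t
  cases b <;> simp [adj, w1, w3]

theorem adj23 (t : Tri) : adj (w2 t) (w3 t) := by
  obtain ⟨a, b⟩ := t
  cases b <;> simp [adj, w2, w3]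

theorem D_V {δ : ℝ} (hδ : 0 < δ) {t : Tri} {p q : Lat} (hp : V t p) (hq : V t q) :
    D δ p q ≤ δ := by
  have h12 : D δ (w1 t) (w2 t) ≤ δ := (norm_adj hδ (adj12 t)).le
  have h13 : D δ (w1 t) (w3 t) ≤ δ := (norm_adj hδ (adj13 t)).le
  have h23 : D δ (w2 t) (w3 t) ≤ δ := (norm_adj hδ (adj23 t)).le
  rcases hp with rfl | rfl | rfl <;> rcases hq with rfl | rfl | rfl <;>
    first
      | (rw [D_self]; exact hδ.le)
      | assumption
      | (rw [D_comm]; assumption)

theorem mem_ball' {δ : ℝ} (hδ : 0 < δ) {x : Lat} {t : Tri} :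
    t ∈ ball δ x ↔ ∀ p, V t p → D δ p x ≤ 1 := by
  rw [mem_ball hδ]
  constructor
  · rintro ⟨h1, h2, h3⟩ p (rfl | rfl | rfl)
    · exact h1
    · exact h2
    · exact h3
  · intro h
    exact ⟨h _ (Or.inl rfl), h _ (Or.inr (Or.inl rfl)), h _ (Or.inr (Or.inr rfl))⟩

/-- colours of a triangle -/
def cols (f : Lat → Fin 6) (t : Tri) : Finset (Fin 6) := {f (w1 t), f (w2 t), f (w3 t)}

theorem mem_cols {f : Lat → Fin 6} {t : Tri} {u : Fin 6} :
    u ∈ cols f t ↔ ∃ p, V t p ∧ f p = u := by
  unfold cols V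
  simp only [Finset.mem_insert, Finset.mem_singleton]
  constructor
  · rintro (h | h | h)
    · exact ⟨w1 t, Or.inl rfl, h.symm⟩
    · exact ⟨w2 t, Or.inr (Or.inl rfl), h.symm⟩
    · exact ⟨w3 t, Or.inr (Or.inr rfl), h.symm⟩
  · rintro ⟨p, (rfl | rfl | rfl), h⟩
    · exact Or.inl h.symm
    · exact Or.inr (Or.inl h.symm)
    · exact Or.inr (Or.inr h.symm)

/-- number modulo two of the triangles in the unit disc around `x` with colour set `S` -/
noncomputable def zz (f : Lat → Fin 6) (δ : ℝ) (x : Lat) (S : Finset (Fin 6)) : ZMod 2 :=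
  ∑ t ∈ ball δ x, if cols f t = S then 1 else 0

/-- the standing assumptions -/
structure Setup (c : ℂ → Fin 6) (η δ : ℝ) : Prop where
  hη : 0 < η
  hη1 : η ≤ 1 / 10
  hδ : 0 < δ
  hδ1 : δ ≤ η / 8
  hc : Good c η

variable {c : ℂ → Fin 6} {η δ : ℝ}

theorem Setup.ne (S : Setup c η δ) {a b : Lat} (ha : ‖pos δ a‖ ≤ 10) (hb : ‖pos δ b‖ ≤ 10)
    (h : |D δ a b - 1| ≤ η) : c (pos δ a) ≠ c (pos δ b) := S.hc _ _ ha hb h

theorem norm_le_of_D {a b : Lat} {r s : ℝ} (h : ‖pos δ b‖ ≤ r) (h2 : D δ a b ≤ s) :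
    ‖pos δ a‖ ≤ r + s := by
  have : pos δ a = (pos δ a - pos δ b) + pos δ b := by ring
  rw [this]
  calc _ ≤ ‖pos δ a - pos δ b‖ + ‖pos δ b‖ := norm_add_le _ _
    _ ≤ s + r := add_le_add h2 h
    _ = _ := by ring

/-- (a) -/
theorem Setup.zz_eq (S : Setup c η δ) {x x' y : Lat} (hx : ‖pos δ x‖ ≤ 8) (hxx : D δ x x' ≤ δ)
    (hxy : D δ x y ≤ δ) {T : Finset (Fin 6)} (hT : c (pos δ y) ∈ T) :
    zz (c ∘ pos δ) δ x T = zz (c ∘ pos δ) δ x' T := by
  classical
  have hδ := S.hδ
  have hδ1 := S.hδ1
  have hη := S.hη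
  have hη1 := S.hη1
  have hsum : zz (c ∘ pos δ) δ x T + zz (c ∘ pos δ) δ x' T = 0 := by
    apply sum_add_sum_eq_zero
    intro t
    by_cases hiff : t ∈ ball δ x ↔ t ∈ ball δ x'
    · exact Or.inl hiff
    · right
      -- all vertices are near the unit circle around `x`
      have hnear : ∀ p, V t p → |D δ p x - 1| ≤ 3 * δ := by
        intro p hp
        by_cases h1 : t ∈ ball δ x
        · have h2 : t ∉ ball δ x' := fun h => hiff (iff_of_true h1 h)
          rw [mem_ball' hδ] at h1 h2
          push Not at h2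
          obtain ⟨q, hq, hq2⟩ := h2
          have e1 := h1 p hp
          have e2 := D_tri δ q x x'
          have e3 := D_tri δ q p x
          have e4 := D_V hδ hq hp
          rw [abs_le]
          constructor <;> linarith
        · have h2 : t ∈ ball δ x' := by
            by_contra h
            exact hiff (iff_of_false h1 h)
          rw [mem_ball' hδ] at h1 h2
          push Not at h1
          obtain ⟨q, hq, hq2⟩ := h1
          have e1 := h2 p hp
          have e2 := D_tri δ p x' x
          have e3 := D_tri δ q p x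
          have e4 := D_V hδ hq hp
          have e5 : D δ x' x ≤ δ := by rw [D_comm]; exact hxx
          rw [abs_le]
          constructor <;> linarith
      have hnot : c (pos δ y) ∉ cols (c ∘ pos δ) t := by
        rw [mem_cols]
        rintro ⟨p, hp, hpy⟩
        have e1 := hnear p hp
        have e2 := D_tri δ p x y
        have e3 := D_tri δ p y x
        have e4 : D δ y x ≤ δ := by rw [D_comm]; exact hxy
        rw [abs_le] at e1
        refine S.ne (a := p) (b := y) ?_ ?_ ?_ hpy
        · have := norm_le_of_D (δ := δ) (a := p) (b := x) (s := 2) hx (by linarith)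
          linarith
        · have := norm_le_of_D (δ := δ) (a := y) (b := x) (s := 1) hx (by linarith)
          linarith
        · rw [abs_le]
          constructor <;> linarith
      rw [if_neg]
      rintro rfl
      exact hnot hT
  exact CharTwo.add_eq_zero.1 hsum

/-- indicator of the edge colours `i, j` -/
def P (i j p q : Fin 6) : ZMod 2 := if (p = i ∧ q = j) ∨ (p = j ∧ q = i) then 1 else 0

set_option maxRecDepth 100000 in
theorem tri_id : ∀ p q r i j : Fin 6, i ≠ j →
    P i j p q + P i j p r + P i j q r =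
      ∑ k ∈ Finset.univ \ {i, j},
        if ({p, q, r} : Finset (Fin 6)) = {i, j, k} then (1 : ZMod 2) else 0 := by
  decide +kernel

theorem sum_zz (f : Lat → Fin 6) (δ : ℝ) (x : Lat) {i j : Fin 6} (hij : i ≠ j) :
    ∑ k ∈ Finset.univ \ {i, j}, zz f δ x {i, j, k}
      = ∑ t ∈ ball δ x, dpsi (fun a b => P i j (f a) (f b)) t := by
  unfold zz
  rw [Finset.sum_comm]
  apply Finset.sum_congr rfl
  intro t _
  exact (tri_id (f (w1 t)) (f (w2 t)) (f (w3 t)) i j hij).symm

theorem P_symm (i j p q : Fin 6) : P i j p q = P i j q p := by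
  unfold P
  congr 1
  exact propext ⟨fun h => by tauto, fun h => by tauto⟩

/-- (c) -/
theorem Setup.rel0 (S : Setup c η δ) {x y : Lat} (hx : ‖pos δ x‖ ≤ 8) (hxy : D δ x y ≤ δ)
    {i j : Fin 6} (hij : i ≠ j) (hy : c (pos δ y) = i) :
    ∑ k ∈ Finset.univ \ {i, j}, zz (c ∘ pos δ) δ x {i, j, k} = 0 := by
  have hδ := S.hδ
  have hδ1 := S.hδ1
  have hη := S.hη
  have hη1 := S.hη1
  rw [sum_zz _ _ _ hij]
  apply stokes_ball hδ
  · intro a b
    exact P_symm _ _ _ _
  · intro a b hab h1 h2 h3 h4
    have key : ∀ p : Lat, 1 - δ ≤ ‖pos δ p - pos δ x‖ → ‖pos δ p - pos δ x‖ ≤ 1 →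
        c (pos δ p) ≠ i := by
      intro p hp1 hp2
      rw [← hy]
      have hp1' : 1 - δ ≤ D δ p x := hp1
      have hp2' : D δ p x ≤ 1 := hp2
      have e2 := D_tri δ p x y
      have e3 := D_tri δ p y x
      have e4 : D δ y x ≤ δ := by rw [D_comm]; exact hxy
      apply S.ne
      · have := norm_le_of_D (δ := δ) (a := p) (b := x) (s := 1) hx hp2'
        linarith
      · have := norm_le_of_D (δ := δ) (a := y) (b := x) (s := 1) hx (by linarith)
        linarith
      · rw [abs_le]
        constructor <;> linarith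
    have ka := key a h1 h2
    have kb := key b h3 h4
    simp [P, ka, kb]

/-- the cut cochain with centre `x` -/
def chix (x a b : Lat) : ZMod 2 := chi (a - x) (b - x)

theorem chi_symm (a b : Lat) : chi a b = chi b a := by
  unfold chi
  congr 1
  exact propext ⟨fun h => by tauto, fun h => by tauto⟩

theorem chix_symm (x a b : Lat) : chix x a b = chix x b a := chi_symm _ _

theorem dchi (x : Lat) (t : Tri) :
    dpsi (chix x) t = if t = (x - (1, 1), true) then 1 else 0 := by
  obtain ⟨a, b⟩ := t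
  have h2 : (1 : ZMod 2) + 1 = 0 := rfl
  cases b
  · have e : dpsi (chix x) (a, false)
        = chi (a - x) (a + (1, 0) - x) + chi (a - x) (a + (0, 1) - x)
          + chi (a + (1, 0) - x) (a + (0, 1) - x) := rfl
    rw [e]
    simp only [chi, Prod.fst_sub, Prod.snd_sub, Prod.fst_add, Prod.snd_add, Prod.mk.injEq,
      Bool.false_eq_true, and_false, if_false]
    rw [if_neg (by omega)]
    by_cases h : a.2 - x.2 = -1 ∧ a.1 - x.1 ≤ -1
    · rw [if_pos (by omega), if_pos (by omega), zero_add, h2]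
    · rw [if_neg (by omega), if_neg (by omega), add_zero, zero_add]
  · have e : dpsi (chix x) (a, true)
        = chi (a + (1, 1) - x) (a + (1, 0) - x) + chi (a + (1, 1) - x) (a + (0, 1) - x)
          + chi (a + (1, 0) - x) (a + (0, 1) - x) := rfl
    rw [e]
    simp only [chi, Prod.fst_sub, Prod.snd_sub, Prod.fst_add, Prod.snd_add, and_true,
      Prod.ext_iff]
    by_cases h : a.2 - x.2 = -1
    · by_cases h' : a.1 - x.1 ≤ -2
      · rw [if_pos (by omega), if_neg (by omega), if_pos (by omega), if_neg (by omega), add_zero, h2]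
      · by_cases h'' : a.1 - x.1 = -1
        · rw [if_neg (by omega), if_neg (by omega), if_pos (by omega), if_pos (by omega), add_zero,
            zero_add]
        · rw [if_neg (by omega), if_neg (by omega), if_neg (by omega), if_neg (by omega), add_zero,
            add_zero]
    · rw [if_neg (by omega), if_neg (by omega), if_neg (by omega), if_neg (by omega), add_zero,
        add_zero]

theorem sum_dchi (hδ : 0 < δ) (hδ1 : δ ≤ 1) (x : Lat) : ∑ t ∈ ball δ x, dpsi (chix x) t = 1 := by
  have hmem : (x - (1, 1), true) ∈ ball δ x := by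
    rw [mem_ball' hδ]
    intro p hp
    have : V (x - (1, 1), true) x := Or.inl (by simp [w1])
    exact (D_V hδ hp this).trans hδ1
  rw [Finset.sum_congr rfl (fun t _ => dchi x t), Finset.sum_ite_eq' (ball δ x)]
  simp [hmem]

end Pool.Agent.ClosedPlane
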