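import Pool.Agent.ClosedPlane.Colours

namespace Pool.Agent.ClosedPlane

open Complex

variable {c : ℂ → Fin 6} {η δ : ℝ}

/-- (C) -/
theorem Setup.caseC (S : Setup c η δ) {w b b' : Lat} (hw : ‖pos δ w‖ ≤ 6)
    (hwb : D δ w b ≤ δ) (hwb' : D δ w b' ≤ δ)
    (hcw : (c (pos δ w)).val < 3) (hcb : ¬ (c (pos δ b)).val < 3) (hcb' : ¬ (c (pos δ b')).val < 3)
    (hne : c (pos δ b) ≠ c (pos δ b')) :
    GG (zz (c ∘ pos δ) δ w) (c (pos δ w)) (c (pos δ b))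
      + GG (zz (c ∘ pos δ) δ w) (c (pos δ w)) (c (pos δ b'))
      = 1 + zz (c ∘ pos δ) δ w {0, 1, 2} := by
  set Z := zz (c ∘ pos δ) δ w with hZ
  obtain ⟨a1, a2, ha1, ha2, h01, h02, h12, her, hset⟩ := white_split _ hcw
  obtain ⟨b2, hb2, hbb2, hb'b2⟩ := black_split2 _ _ hcb hcb' hne
  have hn : [c (pos δ w), c (pos δ b), c (pos δ b'), a1, a2, b2].Nodup := by
    simp only [List.nodup_cons, List.mem_cons, List.not_mem_nil, or_false, not_or,
      not_false_eq_true, List.nodup_nil, and_true]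
    exact ⟨⟨ne_of_wb hcw hcb, ne_of_wb hcw hcb', h01, h02, ne_of_wb hcw hb2⟩,
      ⟨hne, (ne_of_wb ha1 hcb).symm, (ne_of_wb ha2 hcb).symm, hbb2⟩,
      ⟨(ne_of_wb ha1 hcb').symm, (ne_of_wb ha2 hcb').symm, hb'b2⟩,
      ⟨h12, ne_of_wb ha1 hb2⟩, ne_of_wb ha2 hb2⟩
  have R1 := S.rel1 hw hwb hwb' hn
  have hn2 : [a1, a2, c (pos δ w), c (pos δ b), c (pos δ b'), b2].Nodup := by
    simp only [List.nodup_cons, List.mem_cons, List.not_mem_nil, or_false, not_or,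
      not_false_eq_true, List.nodup_nil, and_true] at hn ⊢
    tauto
  rw [sum4 _ hn2] at R1
  have R2 : zz (c ∘ pos δ) δ w {a1, a2, b2} = 0 :=
    S.comp0 (by linarith) hwb hwb' (by rw [D_self]; norm_num) hn
  rw [← hZ] at R1 R2
  have h2 : (2 : ZMod 2) = 0 := rfl
  have e1 : oth (c (pos δ w)) (c (pos δ b)) = {a1, a2, c (pos δ b)} := by
    unfold oth
    rw [her]
    exact (perm_a _ _ _).symm
  have e2 : oth (c (pos δ w)) (c (pos δ b')) = {a1, a2, c (pos δ b')} := by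
    unfold oth
    rw [her]
    exact (perm_a _ _ _).symm
  unfold GG
  rw [e1, e2, ← hset]
  linear_combination R1 - R2 + (zs Z (c (pos δ w)) - Z {a1, a2, c (pos δ w)}) * h2

/-- (B) -/
theorem Setup.caseB (S : Setup c η δ) {w w' b : Lat} (hw : ‖pos δ w‖ ≤ 6)
    (hww' : D δ w w' ≤ δ) (hwb : D δ w b ≤ δ) (heq : c (pos δ w) = c (pos δ w')) :
    GG (zz (c ∘ pos δ) δ w) (c (pos δ w)) (c (pos δ b))
      = GG (zz (c ∘ pos δ) δ w') (c (pos δ w')) (c (pos δ b)) := by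
  rw [← heq]
  unfold GG zs
  have e0 : D δ w w ≤ δ := by rw [D_self]; exact S.hδ.le
  have h1 := S.zz_eq (T := oth (c (pos δ w)) (c (pos δ b))) (by linarith) hww' hwb
    (by simp [oth])
  have h2 := S.zz_eq (T := {c (pos δ w), 3, 4}) (by linarith) hww' e0 (by simp)
  have h3 := S.zz_eq (T := {c (pos δ w), 4, 5}) (by linarith) hww' e0 (by simp)
  have h4 := S.zz_eq (T := {c (pos δ w), 3, 5}) (by linarith) hww' e0 (by simp)
  rw [h1, h2, h3, h4]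

/-- (D) -/
theorem Setup.caseD (S : Setup c η δ) {w w' b : Lat} (hw : ‖pos δ w‖ ≤ 6)
    (hww' : D δ w w' ≤ δ) (hwb : D δ w b ≤ δ)
    (hcw : (c (pos δ w)).val < 3) (hcw' : (c (pos δ w')).val < 3) (hcb : ¬ (c (pos δ b)).val < 3)
    (hne : c (pos δ w) ≠ c (pos δ w')) (h345 : zz (c ∘ pos δ) δ w {3, 4, 5} = 0) :
    GG (zz (c ∘ pos δ) δ w) (c (pos δ w)) (c (pos δ b))
      + GG (zz (c ∘ pos δ) δ w') (c (pos δ w')) (c (pos δ b)) = 1 := by
  obtain ⟨a2, ha2, h02, h12, her, her'⟩ := white_split2 _ _ hcw hcw' hne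
  obtain ⟨b1, b2, hb1, hb2, hbb1, hbb2, hb12⟩ := black_split _ hcb
  -- replace `w'` by `w`
  have e1 : zz (c ∘ pos δ) δ w' (oth (c (pos δ w')) (c (pos δ b)))
      = zz (c ∘ pos δ) δ w (oth (c (pos δ w')) (c (pos δ b))) :=
    (S.zz_eq (T := oth (c (pos δ w')) (c (pos δ b))) (by linarith) hww' hwb (by simp [oth])).symm
  have e2 : zs (zz (c ∘ pos δ) δ w') (c (pos δ w')) = zs (zz (c ∘ pos δ) δ w) (c (pos δ w')) := by
    unfold zs
    rw [S.zz_eq (T := {c (pos δ w'), 3, 4}) (by linarith) hww' hww' (by simp),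
      S.zz_eq (T := {c (pos δ w'), 4, 5}) (by linarith) hww' hww' (by simp),
      S.zz_eq (T := {c (pos δ w'), 3, 5}) (by linarith) hww' hww' (by simp)]
  unfold GG
  rw [e1, e2]
  have R2 := S.rel0 (x := w) (by linarith) hwb hbb1 rfl
  have R3 := S.rel0 (x := w) (by linarith) hwb hbb2 rfl
  have R4 := S.rel0 (x := w) (by linarith) hwb (ne_of_wb ha2 hcb).symm rfl
  have nww' := hne
  have nwb := ne_of_wb hcw hcb
  have nwb1 := ne_of_wb hcw hb1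
  have nwb2 := ne_of_wb hcw hb2
  have nw'b := ne_of_wb hcw' hcb
  have nw'b1 := ne_of_wb hcw' hb1
  have nw'b2 := ne_of_wb hcw' hb2
  have n2b := ne_of_wb ha2 hcb
  have n2b1 := ne_of_wb ha2 hb1
  have n2b2 := ne_of_wb ha2 hb2
  have hn : [c (pos δ w), c (pos δ w'), c (pos δ b), b1, b2, a2].Nodup := by
    simp only [List.nodup_cons, List.mem_cons, List.not_mem_nil, or_false, not_or,
      not_false_eq_true, List.nodup_nil, and_true]
    exact ⟨⟨hne, nwb, nwb1, nwb2, h02⟩, ⟨nw'b, nw'b1, nw'b2, h12⟩, ⟨hbb1, hbb2, n2b.symm⟩,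
      ⟨hb12, n2b1.symm⟩, n2b2.symm⟩
  have R1 := S.rel1 hw hww' hwb hn
  have A3 : zz (c ∘ pos δ) δ w {b1, b2, a2} = 0 :=
    S.comp0 (by linarith) hww' hwb (by rw [D_self]; norm_num) hn
  have A4 : zz (c ∘ pos δ) δ w {c (pos δ b), b1, b2} = 0 := by
    rw [black_set _ _ _ hcb hb1 hb2 hbb1 hbb2 hb12]
    exact h345
  have m1 : [b1, b2, c (pos δ w), c (pos δ w'), c (pos δ b), a2].Nodup := by
    simp only [List.nodup_cons, List.mem_cons, List.not_mem_nil, or_false, not_or,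
      not_false_eq_true, List.nodup_nil, and_true]
    exact ⟨⟨hb12, nwb1.symm, nw'b1.symm, hbb1.symm, n2b1.symm⟩,
      ⟨nwb2.symm, nw'b2.symm, hbb2.symm, n2b2.symm⟩, ⟨hne, nwb, h02⟩, ⟨nw'b, h12⟩, n2b.symm⟩
  have m2 : [c (pos δ b), b1, c (pos δ w), c (pos δ w'), a2, b2].Nodup := by
    simp only [List.nodup_cons, List.mem_cons, List.not_mem_nil, or_false, not_or,
      not_false_eq_true, List.nodup_nil, and_true]
    exact ⟨⟨hbb1, nwb.symm, nw'b.symm, n2b.symm, hbb2⟩,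
      ⟨nwb1.symm, nw'b1.symm, n2b1.symm, hb12⟩, ⟨hne, h02, nwb2⟩, ⟨h12, nw'b2⟩, n2b2⟩
  have m3 : [c (pos δ b), b2, c (pos δ w), c (pos δ w'), a2, b1].Nodup := by
    simp only [List.nodup_cons, List.mem_cons, List.not_mem_nil, or_false, not_or,
      not_false_eq_true, List.nodup_nil, and_true]
    exact ⟨⟨hbb2, nwb.symm, nw'b.symm, n2b.symm, hbb1⟩,
      ⟨nwb2.symm, nw'b2.symm, n2b2.symm, hb12.symm⟩, ⟨hne, h02, nwb1⟩, ⟨h12, nw'b1⟩, n2b1⟩
  have m4 : [c (pos δ b), a2, c (pos δ w), c (pos δ w'), b1, b2].Nodup := by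
    simp only [List.nodup_cons, List.mem_cons, List.not_mem_nil, or_false, not_or,
      not_false_eq_true, List.nodup_nil, and_true]
    exact ⟨⟨n2b.symm, nwb.symm, nw'b.symm, hbb1, hbb2⟩,
      ⟨h02.symm, h12.symm, n2b1, n2b2⟩, ⟨hne, nwb1, nwb2⟩, ⟨nw'b1, nw'b2⟩, hb12⟩
  rw [sum4 _ m1] at R1
  rw [sum4 _ m2] at R2
  rw [sum4 _ m3] at R3
  rw [sum4 _ m4] at R4
  have o1 : oth (c (pos δ w)) (c (pos δ b)) = {c (pos δ b), c (pos δ w'), a2} := by
    unfold oth; rw [her]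
  have o2 : oth (c (pos δ w')) (c (pos δ b)) = {c (pos δ b), c (pos δ w), a2} := by
    unfold oth; rw [her']
  rw [o1, o2, zs_perm _ _ hcb hb1 hb2 hbb1 hbb2 hb12, zs_perm _ _ hcb hb1 hb2 hbb1 hbb2 hb12]
  set Z := zz (c ∘ pos δ) δ w with hZ
  set a := c (pos δ w)
  set a1 := c (pos δ w')
  set b := c (pos δ b)
  rw [perm_a b1 b2 a, perm_a b1 b2 a1, perm_a b1 b2 b] at R1
  rw [perm_a b b1 a, perm_a b b1 a1] at R2
  rw [perm_a b b2 a, perm_a b b2 a1, perm_c b b2 a2, perm_c b b2 b1] at R3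
  rw [perm_c b a2 a, perm_c b a2 a1, perm_c b a2 b1] at R4
  rw [perm_c b a2 b2] at R4
  rw [perm_c b a2 b2] at R3
  have h2 : (2 : ZMod 2) = 0 := rfl
  linear_combination R1 + R2 + R3 + R4 - A3 - 3 * A4
    - (Z {b, b1, a2} + Z {b, b2, a2}) * h2

end Pool.Agent.ClosedPlane
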