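import Pool.Agent.ClosedPlane.Basic

namespace Pool.Agent.ClosedPlane

open Complex

variable {c : ℂ → Fin 6} {η δ : ℝ}

theorem six_cases : ∀ a1 a2 a3 i j k u : Fin 6, [a1, a2, a3, i, j, k].Nodup →
    u ≠ a1 → u ≠ a2 → u ≠ a3 → u = i ∨ u = j ∨ u = k := by
  intro a1 a2 a3 i j k u hn h1 h2 h3
  by_contra hcon
  push Not at hcon
  have hn7 : [u, a1, a2, a3, i, j, k].Nodup := by
    rw [List.nodup_cons]
    refine ⟨?_, hn⟩
    simp only [List.mem_cons, List.not_mem_nil, or_false, not_or]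
    exact ⟨h1, h2, h3, hcon.1, hcon.2.1, hcon.2.2⟩
  have := hn7.length_le_card
  simp at this

/-- The circle lemma for the centre `x`, a vertex of a trichromatic triangle. -/
theorem Setup.circ (S : Setup c η δ) {x y z : Lat} (hx : ‖pos δ x‖ ≤ 6) (hxy : D δ x y ≤ δ)
    (hxz : D δ x z ≤ δ) {i j k : Fin 6}
    (hn : [c (pos δ x), c (pos δ y), c (pos δ z), i, j, k].Nodup) :
    ∃ s : Lat → ZMod 2, ∀ a b : Lat, adj a b → a ≠ x → b ≠ x → D δ a x ≤ 3 / 2 → D δ b x ≤ 3 / 2 →
      (c (pos δ a) = i ∨ c (pos δ a) = j ∨ c (pos δ a) = k) →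
      (c (pos δ b) = i ∨ c (pos δ b) = j ∨ c (pos δ b) = k) →
      (if c (pos δ a) = c (pos δ b) then (0 : ZMod 2) else 1) = s a + s b + chix x a b := by
  have hδ := S.hδ
  have hδ1 := S.hδ1
  have hη := S.hη
  have hη1 := S.hη1
  set code : Fin 6 → ZMod 3 := fun u => if u = i then 0 else if u = j then 1 else 2 with hcode
  have hij : i ≠ j := by
    intro h; subst h; simp at hn
  have hik : i ≠ k := by
    intro h; subst h; simp at hn
  have hjk : j ≠ k := by
    intro h; subst h; simp at hn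
  have hinj : ∀ u v : Fin 6, (u = i ∨ u = j ∨ u = k) → (v = i ∨ v = j ∨ v = k) →
      code u = code v → u = v := by
    intro u v hu hv huv
    have h01 : (0 : ZMod 3) ≠ 1 := by decide
    have h02 : (0 : ZMod 3) ≠ 2 := by decide
    have h12 : (1 : ZMod 3) ≠ 2 := by decide
    rcases hu with rfl | rfl | rfl <;> rcases hv with rfl | rfl | rfl <;>
      simp_all [Ne.symm hij, Ne.symm hik, Ne.symm hjk]
  -- points near the unit circle around `x` have one of the colours `i, j, k`
  have hcirc : ∀ w : ℂ, ‖w‖ = 1 →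
      (c (pos δ x + w) = i ∨ c (pos δ x + w) = j ∨ c (pos δ x + w) = k) := by
    intro w hw
    have hwin : ‖pos δ x + w‖ ≤ 10 := by
      calc _ ≤ ‖pos δ x‖ + ‖w‖ := norm_add_le _ _
        _ ≤ 10 := by rw [hw]; linarith
    have key : ∀ p : Lat, D δ x p ≤ δ → c (pos δ x + w) ≠ c (pos δ p) := by
      intro p hp
      apply S.hc _ _ hwin
      · have := norm_le_of_D (δ := δ) (a := p) (b := x) (s := 1) hx
          (by rw [D_comm]; linarith)
        linarith
      · have e1 : pos δ x + w - pos δ p = w + (pos δ x - pos δ p) := by ring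
        have e2 : |‖w + (pos δ x - pos δ p)‖ - ‖w‖| ≤ ‖pos δ x - pos δ p‖ := by
          have := abs_norm_sub_norm_le (w + (pos δ x - pos δ p)) w
          simpa using this
        rw [e1]
        rw [hw] at e2
        exact e2.trans (hp.trans (by linarith))
    exact six_cases _ _ _ _ _ _ _ hn (key x (by rw [D_self]; exact hδ.le)) (key y hxy) (key z hxz)
  obtain ⟨s, hs⟩ := lattice_lift (fun θ => code (c (pos δ x + cexp (θ * I))))
    (fun w => code (c (pos δ x + w)))
    (fun w => ‖w‖ ≤ 2 ∧ (c (pos δ x + w) = i ∨ c (pos δ x + w) = j ∨ c (pos δ x + w) = k))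
    η δ hη hη1 hδ (by linarith)
    (by
      intro θ
      have : cexp ((θ + 2 * Real.pi : ℝ) * I) = cexp (θ * I) := by
        push_cast
        rw [add_mul, Complex.exp_add, Complex.exp_two_pi_mul_I, mul_one]
      simp only [this])
    (by
      intro θ θ' h hcon
      have h1 : ‖cexp (θ * I)‖ = 1 := Complex.norm_exp_ofReal_mul_I θ
      have h2 : ‖cexp (θ' * I)‖ = 1 := Complex.norm_exp_ofReal_mul_I θ'
      have hcol := hinj _ _ (hcirc _ h1) (hcirc _ h2) hcon
      refine S.hc _ _ ?_ ?_ ?_ hcol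
      · calc _ ≤ ‖pos δ x‖ + ‖cexp (θ * I)‖ := norm_add_le _ _
          _ ≤ 10 := by rw [h1]; linarith
      · calc _ ≤ ‖pos δ x‖ + ‖cexp (θ' * I)‖ := norm_add_le _ _
          _ ≤ 10 := by rw [h2]; linarith
      · have : pos δ x + cexp (θ * I) - (pos δ x + cexp (θ' * I))
            = cexp (θ * I) - cexp (θ' * I) := by ring
        rw [this]; exact h)
    (by
      rintro w θ ⟨hw, hwc⟩ h hcon
      have h1 : ‖cexp (θ * I)‖ = 1 := Complex.norm_exp_ofReal_mul_I θ
      have hcol := hinj _ _ (hcirc _ h1) hwc hcon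
      refine S.hc _ _ ?_ ?_ ?_ hcol
      · calc _ ≤ ‖pos δ x‖ + ‖cexp (θ * I)‖ := norm_add_le _ _
          _ ≤ 10 := by rw [h1]; linarith
      · calc _ ≤ ‖pos δ x‖ + ‖w‖ := norm_add_le _ _
          _ ≤ 10 := by linarith
      · have : pos δ x + cexp (θ * I) - (pos δ x + w) = cexp (θ * I) - w := by ring
        rw [this]; exact h)
  refine ⟨fun a => s (a - x), ?_⟩
  intro a b hab hax hbx hDa hDb hca hcb
  have e1 : ∀ p : Lat, pos δ x + pos δ (p - x) = pos δ p := by
    intro p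
    rw [← pos_sub]; ring
  have hab' : adj (a - x) (b - x) := by
    unfold adj at *
    rw [sub_sub_sub_cancel_right]; exact hab
  have na : ‖pos δ (a - x)‖ ≤ 3 / 2 := by rw [← pos_sub]; exact hDa
  have nb : ‖pos δ (b - x)‖ ≤ 3 / 2 := by rw [← pos_sub]; exact hDb
  have := hs (a - x) (b - x) ⟨by linarith, by rw [e1]; exact hca⟩ ⟨by linarith, by rw [e1]; exact hcb⟩
    (sub_ne_zero.2 hax) (sub_ne_zero.2 hbx) na nb hab'
  simp only [e1] at this
  unfold chix
  rw [← this]
  by_cases h : c (pos δ a) = c (pos δ b)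
  · rw [if_pos h, if_pos (by rw [h])]
  · rw [if_neg h, if_neg (fun hh => h (hinj _ _ hca hcb hh))]

/-- (d) -/
theorem Setup.rel1 (S : Setup c η δ) {x y z : Lat} (hx : ‖pos δ x‖ ≤ 6) (hxy : D δ x y ≤ δ)
    (hxz : D δ x z ≤ δ) {i j k : Fin 6}
    (hn : [c (pos δ x), c (pos δ y), c (pos δ z), i, j, k].Nodup) :
    ∑ l ∈ Finset.univ \ {i, j}, zz (c ∘ pos δ) δ x {i, j, l} = 1 := by
  have hδ := S.hδ
  have hδ1 := S.hδ1
  have hη := S.hη
  have hη1 := S.hη1
  have hij : i ≠ j := by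
    intro h; subst h; simp at hn
  have hik : i ≠ k := by
    intro h; subst h; simp at hn
  have hjk : j ≠ k := by
    intro h; subst h; simp at hn
  obtain ⟨s, hs⟩ := S.circ hx hxy hxz hn
  rw [sum_zz _ _ _ hij]
  set o : Lat → ZMod 2 := fun a =>
    s a + (if c (pos δ a) = i then 1 else 0) + (if c (pos δ a) = j then 1 else 0) with ho
  have hst : ∑ t ∈ ball δ x, dpsi (fun a b => P i j (c (pos δ a)) (c (pos δ b)) + (o a + o b)
      + chix x a b) t = 0 := by
    apply stokes_ball hδ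
    · intro a b
      rw [P_symm, chix_symm, add_comm (o a)]
    · intro a b hab h1 h2 h3 h4
      have key : ∀ p : Lat, 1 - δ ≤ ‖pos δ p - pos δ x‖ → ‖pos δ p - pos δ x‖ ≤ 1 →
          (c (pos δ p) = i ∨ c (pos δ p) = j ∨ c (pos δ p) = k) := by
        intro p hp1 hp2
        have hp1' : 1 - δ ≤ D δ p x := hp1
        have hp2' : D δ p x ≤ 1 := hp2
        have key2 : ∀ q : Lat, D δ x q ≤ δ → c (pos δ p) ≠ c (pos δ q) := by
          intro q hq
          have e2 := D_tri δ p x q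
          have e3 := D_tri δ p q x
          have e4 : D δ q x ≤ δ := by rw [D_comm]; exact hq
          apply S.ne
          · have := norm_le_of_D (δ := δ) (a := p) (b := x) (s := 1) hx hp2'
            linarith
          · have := norm_le_of_D (δ := δ) (a := q) (b := x) (s := 1) hx (by linarith)
            linarith
          · rw [abs_le]
            constructor <;> linarith
        exact six_cases _ _ _ _ _ _ _ hn (key2 x (by rw [D_self]; exact hδ.le)) (key2 y hxy)
          (key2 z hxz)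
      have ka := key a h1 h2
      have kb := key b h3 h4
      have hnex : ∀ p : Lat, 1 - δ ≤ ‖pos δ p - pos δ x‖ → p ≠ x := by
        intro p hp hpx
        subst hpx
        simp at hp
        linarith
      have := hs a b hab (hnex a h1) (hnex b h3) (by unfold D; linarith) (by unfold D; linarith) ka kb
      have h2 : (1 : ZMod 2) + 1 = 0 := rfl
      have e : P i j (c (pos δ a)) (c (pos δ b)) + (o a + o b) + chix x a b
          = P i j (c (pos δ a)) (c (pos δ b)) + (s a + s b + chix x a b)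
            + ((if c (pos δ a) = i then 1 else 0) + (if c (pos δ a) = j then 1 else 0)
            + (if c (pos δ b) = i then 1 else 0) + (if c (pos δ b) = j then 1 else 0)) := by
        simp only [ho]; ring
      rw [e, ← this]
      rcases ka with h | h | h <;> rcases kb with h' | h' | h' <;> rw [h, h'] <;>
        simp [P, hij, hik, hjk, Ne.symm hij, Ne.symm hik, Ne.symm hjk] <;> rfl
  have hsplit : ∀ t, dpsi (fun a b => P i j (c (pos δ a)) (c (pos δ b)) + (o a + o b)
      + chix x a b) t = dpsi (fun a b => P i j (c (pos δ a)) (c (pos δ b))) t + dpsi (chix x) t := by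
    intro t
    have h2 : (2 : ZMod 2) = 0 := rfl
    unfold dpsi
    linear_combination (o (w1 t) + o (w2 t) + o (w3 t)) * h2
  rw [Finset.sum_congr rfl (fun t _ => hsplit t), Finset.sum_add_distrib,
    sum_dchi hδ (by linarith) x] at hst
  have h2 : (1 : ZMod 2) = -1 := rfl
  have : ∑ t ∈ ball δ x, dpsi (fun a b => P i j ((c ∘ pos δ) a) ((c ∘ pos δ) b)) t = -1 :=
    eq_neg_of_add_eq_zero_left hst
  rw [this, ← h2]

theorem exists_inter (u v : ℂ) (h : ‖u - v‖ ≤ 2) (hne : u ≠ v) :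
    ∃ w : ℂ, ‖w - u‖ = 1 ∧ ‖w - v‖ = 1 := by
  set d : ℂ := v - u with hd
  have hd0 : d ≠ 0 := sub_ne_zero.2 (Ne.symm hne)
  have hdn : 0 < ‖d‖ := norm_pos_iff.2 hd0
  have hd2 : ‖d‖ ≤ 2 := by rw [hd, norm_sub_rev]; exact h
  set r : ℝ := Real.sqrt (1 - ‖d‖ ^ 2 / 4) / ‖d‖ with hr
  have hnn : 0 ≤ 1 - ‖d‖ ^ 2 / 4 := by nlinarith
  have hr2 : r ^ 2 * ‖d‖ ^ 2 = 1 - ‖d‖ ^ 2 / 4 := by
    rw [hr, div_pow, Real.sq_sqrt hnn]
    field_simp
  have key : ∀ e : ℝ, e ^ 2 = 1 / 4 → ‖((e : ℂ) + r * I) * d‖ = 1 := by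
    intro e he
    have h1 : ‖((e : ℂ) + r * I) * d‖ ^ 2 = 1 := by
      rw [norm_mul, mul_pow, ← Complex.normSq_eq_norm_sq, Complex.normSq_add_mul_I, add_mul, hr2, he]
      ring
    have h0 := norm_nonneg (((e : ℂ) + r * I) * d)
    nlinarith
  refine ⟨u + ((1 / 2 : ℝ) + r * I) * d, ?_, ?_⟩
  · have : u + ((1 / 2 : ℝ) + r * I) * d - u = ((1 / 2 : ℝ) + r * I) * d := by ring
    rw [this]
    exact key _ (by norm_num)
  · have : u + ((1 / 2 : ℝ) + r * I) * d - v = ((-1 / 2 : ℝ) + r * I) * d := by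
      rw [hd]; push_cast; ring
    rw [this]
    exact key _ (by norm_num)

/-- F2: complementary trichromatic triangles are at distance more than two -/
theorem Setup.far (S : Setup c η δ) {x y z x' y' z' : Lat} (hx : ‖pos δ x‖ ≤ 7)
    (hxy : D δ x y ≤ δ) (hxz : D δ x z ≤ δ) (hxy' : D δ x' y' ≤ δ) (hxz' : D δ x' z' ≤ δ)
    (hd : D δ x x' ≤ 2)
    (hn : [c (pos δ x), c (pos δ y), c (pos δ z), c (pos δ x'), c (pos δ y'), c (pos δ z')].Nodup) :
    False := by
  have hδ := S.hδ
  have hδ1 := S.hδ1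
  have hη := S.hη
  have hη1 := S.hη1
  have hne : pos δ x ≠ pos δ x' := by
    intro h
    rw [h] at hn
    simp at hn
  obtain ⟨w, hw1, hw2⟩ := exists_inter _ _ hd hne
  have hw8 : ‖w‖ ≤ 8 := by
    calc ‖w‖ = ‖(w - pos δ x) + pos δ x‖ := by ring_nf
      _ ≤ ‖w - pos δ x‖ + ‖pos δ x‖ := norm_add_le _ _
      _ ≤ 8 := by linarith
  have key : ∀ u p : Lat, ‖w - pos δ u‖ = 1 → D δ u p ≤ δ → c w ≠ c (pos δ p) := by
    intro u p hu hup
    have e1 : w - pos δ p = (w - pos δ u) + (pos δ u - pos δ p) := by ring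
    have e2 : |‖(w - pos δ u) + (pos δ u - pos δ p)‖ - ‖w - pos δ u‖| ≤ ‖pos δ u - pos δ p‖ := by
      have := abs_norm_sub_norm_le ((w - pos δ u) + (pos δ u - pos δ p)) (w - pos δ u)
      simpa using this
    rw [hu, ← e1] at e2
    have e3 : ‖pos δ u - pos δ p‖ ≤ δ := hup
    have e4 : |‖w - pos δ p‖ - 1| ≤ δ := e2.trans e3
    apply S.hc _ _ (by linarith) _ (by linarith)
    rw [abs_le] at e4
    calc ‖pos δ p‖ = ‖w - (w - pos δ p)‖ := by ring_nf
      _ ≤ ‖w‖ + ‖w - pos δ p‖ := norm_sub_le _ _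
      _ ≤ 10 := by linarith
  have h7 : [c w, c (pos δ x), c (pos δ y), c (pos δ z), c (pos δ x'), c (pos δ y'),
      c (pos δ z')].Nodup := by
    rw [List.nodup_cons]
    refine ⟨?_, hn⟩
    simp only [List.mem_cons, List.not_mem_nil, or_false, not_or]
    exact ⟨key x x hw1 (by rw [D_self]; exact hδ.le), key x y hw1 hxy, key x z hw1 hxz,
      key x' x' hw2 (by rw [D_self]; exact hδ.le), key x' y' hw2 hxy', key x' z' hw2 hxz'⟩
  have := h7.length_le_card
  simp at this

end Pool.Agent.ClosedPlane
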