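import Pool.Agent.ClosedPlane.Defs

/-! From the circle lemma for points of the plane to the circle lemma on the lattice. -/

namespace Pool.Agent.ClosedPlane.LL

open Complex

lemma pos_re (δ : ℝ) (a : Lat) : (pos δ a).re = δ * ((a.1 : ℝ) + (a.2 : ℝ) / 2) := by
  simp only [pos, om, mul_re, add_re, intCast_re, intCast_im, ofReal_re, ofReal_im, add_im,
    mul_im]
  ring

lemma pos_im (δ : ℝ) (a : Lat) : (pos δ a).im = δ * ((a.2 : ℝ) * (Real.sqrt 3 / 2)) := by
  simp [pos, om]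

lemma sqrt3_sq : (Real.sqrt 3) ^ 2 = 3 := Real.sq_sqrt (by norm_num)

lemma sqrt3_pos : 0 < Real.sqrt 3 := Real.sqrt_pos.2 (by norm_num)

/-- the quadratic form of the lattice -/
def qf (a : Lat) : ℤ := a.1 ^ 2 + a.1 * a.2 + a.2 ^ 2

lemma qf_pos {a : Lat} (ha : a ≠ 0) : 1 ≤ qf a := by
  obtain ⟨m, n⟩ := a
  unfold qf
  simp only
  have : m ≠ 0 ∨ n ≠ 0 := by
    by_contra h
    push Not at h
    exact ha (by rw [h.1, h.2]; rfl)
  rcases this with h | h
  · have h1 : 1 ≤ m ^ 2 := by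
      have := Int.one_le_abs h
      nlinarith [abs_mul_abs_self m]
    by_contra hc
    push Not at hc
    have h4 : 4 * (m ^ 2 + m * n + n ^ 2) = (m + 2 * n) ^ 2 + 3 * m ^ 2 := by ring
    nlinarith [sq_nonneg (m + 2 * n)]
  · have h1 : 1 ≤ n ^ 2 := by
      have := Int.one_le_abs h
      nlinarith [abs_mul_abs_self n]
    by_contra hc
    push Not at hc
    have h4 : 4 * (m ^ 2 + m * n + n ^ 2) = (2 * m + n) ^ 2 + 3 * n ^ 2 := by ring
    nlinarith [sq_nonneg (2 * m + n)]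

lemma normSq_pos_eq (δ : ℝ) (a : Lat) : normSq (pos δ a) = δ ^ 2 * (qf a : ℝ) := by
  rw [normSq_apply, pos_re, pos_im]
  unfold qf
  push_cast
  have h3 := sqrt3_sq
  nlinarith [h3]

lemma adj_cases {a b : Lat} (h : adj a b) : (b.1 = a.1 + 1 ∧ b.2 = a.2) ∨ (b.1 = a.1 ∧ b.2 = a.2 + 1) ∨
    (b.1 = a.1 - 1 ∧ b.2 = a.2 + 1) ∨ (b.1 = a.1 - 1 ∧ b.2 = a.2) ∨ (b.1 = a.1 ∧ b.2 = a.2 - 1) ∨
    (b.1 = a.1 + 1 ∧ b.2 = a.2 - 1) := by
  unfold adj at h
  simp only [Finset.mem_insert, Finset.mem_singleton] at h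
  obtain ⟨a1, a2⟩ := a
  obtain ⟨b1, b2⟩ := b
  simp only [Prod.mk_sub_mk, Prod.mk.injEq] at h ⊢
  omega

lemma pos_sub (δ : ℝ) (a b : Lat) : pos δ b - pos δ a = pos δ (b - a) := by
  unfold pos
  simp only [Prod.fst_sub, Prod.snd_sub]
  push_cast
  ring

lemma qf_adj {a b : Lat} (h : adj a b) : qf (b - a) = 1 := by
  unfold adj at h
  simp only [Finset.mem_insert, Finset.mem_singleton] at h
  rcases h with h | h | h | h | h | h <;> rw [h] <;> rfl

lemma norm_pos_sub {δ : ℝ} (hδ : 0 < δ) {a b : Lat} (h : adj a b) : ‖pos δ b - pos δ a‖ = δ := by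
  rw [pos_sub]
  have h1 : ‖pos δ (b - a)‖ ^ 2 = δ ^ 2 := by
    rw [← normSq_eq_norm_sq, normSq_pos_eq, qf_adj h]
    simp
  have h2 := norm_nonneg (pos δ (b - a))
  nlinarith [sq_nonneg (‖pos δ (b - a)‖ - δ), sq_nonneg (‖pos δ (b - a)‖ + δ)]

lemma pos_ne_zero {δ : ℝ} (hδ : 0 < δ) {a : Lat} (ha : a ≠ 0) : pos δ a ≠ 0 := by
  intro h
  have h1 := normSq_pos_eq δ a
  rw [h, map_zero] at h1
  have h2 : (1 : ℝ) ≤ (qf a : ℝ) := by exact_mod_cast qf_pos ha
  have h3 : 0 < δ ^ 2 := by positivity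
  nlinarith

lemma ratio_re_pos {δ : ℝ} (hδ : 0 < δ) {a b : Lat} (ha : a ≠ 0) (hb : b ≠ 0) (h : adj a b) :
    0 < (pos δ b / pos δ a).re := by
  have hy : 0 < normSq (pos δ a) := normSq_pos.2 (pos_ne_zero hδ ha)
  have e : (pos δ b / pos δ a).re = ((pos δ b).re * (pos δ a).re + (pos δ b).im * (pos δ a).im) /
      normSq (pos δ a) := by
    rw [div_re]
    ring
  rw [e]
  apply div_pos _ hy
  have hd : normSq (pos δ b - pos δ a) = δ ^ 2 := by
    rw [normSq_eq_norm_sq, norm_pos_sub hδ h]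
  have ha1 : (1 : ℝ) ≤ (qf a : ℝ) := by exact_mod_cast qf_pos ha
  have hb1 : (1 : ℝ) ≤ (qf b : ℝ) := by exact_mod_cast qf_pos hb
  have na := normSq_pos_eq δ a
  have nb := normSq_pos_eq δ b
  rw [normSq_apply] at hd na nb
  rw [sub_re, sub_im] at hd
  have h3 : 0 < δ ^ 2 := by positivity
  nlinarith

lemma arg_ratio_lt {δ : ℝ} (hδ : 0 < δ) {a b : Lat} (ha : a ≠ 0) (hb : b ≠ 0) (h : adj a b) :
    |arg (pos δ b / pos δ a)| < Real.pi / 2 := by
  rw [abs_arg_lt_pi_div_two_iff]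
  exact Or.inl (ratio_re_pos hδ ha hb h)

lemma exists_crossing {y y' : ℂ} (hy : y ≠ 0) (hy' : y' ≠ 0) :
    ∃ ε : ℤ, arg y + arg (y' / y) = arg y' + 2 * Real.pi * ε := by
  have h := Complex.arg_mul_coe_angle hy (div_ne_zero hy' hy)
  rw [mul_div_cancel₀ y' hy, ← Real.Angle.coe_add, Real.Angle.angle_eq_iff_two_pi_dvd_sub] at h
  obtain ⟨k, hk⟩ := h
  refine ⟨-k, ?_⟩
  push_cast
  linarith

lemma arg_of_snd_nonneg {δ : ℝ} (hδ : 0 < δ) {a : Lat} (h : 0 ≤ a.2) :
    0 ≤ arg (pos δ a) ∧ arg (pos δ a) ≤ Real.pi := by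
  refine ⟨?_, arg_le_pi _⟩
  rw [arg_nonneg_iff, pos_im]
  have : (0 : ℝ) ≤ (a.2 : ℝ) := by exact_mod_cast h
  have h3 := sqrt3_pos
  positivity

lemma arg_of_snd_neg {δ : ℝ} (hδ : 0 < δ) {a : Lat} (h : a.2 < 0) :
    -Real.pi < arg (pos δ a) ∧ arg (pos δ a) < 0 := by
  refine ⟨neg_pi_lt_arg _, ?_⟩
  rw [arg_neg_iff, pos_im]
  have : (a.2 : ℝ) < 0 := by exact_mod_cast h
  have h3 := sqrt3_pos
  have h4 : (a.2 : ℝ) * (Real.sqrt 3 / 2) < 0 := mul_neg_of_neg_of_pos this (by positivity)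
  exact mul_neg_of_pos_of_neg hδ h4

lemma arg_of_axis_neg {δ : ℝ} (hδ : 0 < δ) {a : Lat} (h : a.2 = 0) (h' : a.1 < 0) :
    arg (pos δ a) = Real.pi := by
  rw [arg_eq_pi_iff, pos_re, pos_im, h]
  have : (a.1 : ℝ) < 0 := by exact_mod_cast h'
  refine ⟨?_, by simp⟩
  have e : δ * ((a.1 : ℝ) + ((0 : ℤ) : ℝ) / 2) = δ * (a.1 : ℝ) := by simp
  rw [e]
  exact mul_neg_of_pos_of_neg hδ this

lemma arg_of_axis_pos {δ : ℝ} (hδ : 0 < δ) {a : Lat} (h : a.2 = 0) (h' : 0 < a.1) :
    arg (pos δ a) = 0 := by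
  rw [arg_eq_zero_iff, pos_re, pos_im, h]
  have : (0 : ℝ) < (a.1 : ℝ) := by exact_mod_cast h'
  refine ⟨?_, by simp⟩
  have e : δ * ((a.1 : ℝ) + ((0 : ℤ) : ℝ) / 2) = δ * (a.1 : ℝ) := by simp
  rw [e]
  positivity

lemma eps_zero {ε : ℤ} (h : |2 * Real.pi * (ε : ℝ)| < 2 * Real.pi) : ε = 0 := by
  have hp := Real.pi_pos
  rw [abs_mul, abs_of_pos (by positivity : (0 : ℝ) < 2 * Real.pi)] at h
  have h1 : |(ε : ℝ)| < 1 := by
    by_contra hc
    push Not at hc
    nlinarith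
  have h2 : |ε| < 1 := by exact_mod_cast h1
  exact Int.abs_lt_one_iff.1 h2

lemma eps_one {ε : ℤ} (h0 : 0 < 2 * Real.pi * (ε : ℝ)) (h : 2 * Real.pi * (ε : ℝ) < 2 * (2 * Real.pi)) :
    ε = 1 := by
  have hp := Real.pi_pos
  have h1 : (0 : ℝ) < (ε : ℝ) := by
    by_contra hc
    push Not at hc
    nlinarith
  have h2 : (ε : ℝ) < 2 := by
    by_contra hc
    push Not at hc
    nlinarith
  have h3 : 0 < ε := by exact_mod_cast h1
  have h4 : ε < 2 := by exact_mod_cast h2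
  omega

/-- the number of crossings of the cut, modulo two -/
lemma crossing_chi {δ : ℝ} (hδ : 0 < δ) {a b : Lat} (ha : a ≠ 0) (hb : b ≠ 0) (h : adj a b) (ε : ℤ)
    (he : arg (pos δ a) + arg (pos δ b / pos δ a) = arg (pos δ b) + 2 * Real.pi * ε) :
    (ε : ZMod 2) = chi a b := by
  have hp := Real.pi_pos
  have hr := arg_ratio_lt hδ ha hb h
  rw [abs_lt] at hr
  obtain ⟨r1, r2⟩ := hr
  by_cases ha2 : 0 ≤ a.2
  · obtain ⟨u1, u2⟩ := arg_of_snd_nonneg hδ ha2
    by_cases hb2 : 0 ≤ b.2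
    · obtain ⟨v1, v2⟩ := arg_of_snd_nonneg hδ hb2
      have hz : ε = 0 := by
        apply eps_zero
        rw [abs_lt]
        constructor <;> linarith
      have hc : chi a b = 0 := by
        unfold chi
        rw [if_neg]
        omega
      rw [hz, hc]
      rfl
    · push Not at hb2
      obtain ⟨v1, v2⟩ := arg_of_snd_neg hδ hb2
      have hadj := adj_cases h
      have ha0 : a.2 = 0 := by omega
      have hb0 : b.2 = -1 := by omega
      have hne : a.1 ≠ 0 := by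
        intro h1
        exact ha (Prod.ext h1 ha0)
      rcases lt_or_gt_of_ne hne with h1 | h1
      · have hpi := arg_of_axis_neg hδ ha0 h1
        have hz : ε = 1 := by
          apply eps_one <;> linarith
        have hc : chi a b = 1 := by
          unfold chi
          rw [if_pos]
          left
          omega
        rw [hz, hc]
        rfl
      · have hpi := arg_of_axis_pos hδ ha0 h1
        have hz : ε = 0 := by
          apply eps_zero
          rw [abs_lt]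
          constructor <;> linarith
        have hc : chi a b = 0 := by
          unfold chi
          rw [if_neg]
          omega
        rw [hz, hc]
        rfl
  · push Not at ha2
    obtain ⟨u1, u2⟩ := arg_of_snd_neg hδ ha2
    by_cases hb2 : 0 ≤ b.2
    · obtain ⟨v1, v2⟩ := arg_of_snd_nonneg hδ hb2
      have hadj := adj_cases h
      have hb0 : b.2 = 0 := by omega
      have ha0 : a.2 = -1 := by omega
      have hne : b.1 ≠ 0 := by
        intro h1
        exact hb (Prod.ext h1 hb0)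
      rcases lt_or_gt_of_ne hne with h1 | h1
      · have hpi := arg_of_axis_neg hδ hb0 h1
        have hz : -ε = 1 := by
          apply eps_one
          · push_cast
            linarith
          · push_cast
            linarith
        have hz' : ε = -1 := by omega
        have hc : chi a b = 1 := by
          unfold chi
          rw [if_pos]
          right
          omega
        rw [hz', hc]
        rfl
      · have hpi := arg_of_axis_pos hδ hb0 h1
        have hz : ε = 0 := by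
          apply eps_zero
          rw [abs_lt]
          constructor <;> linarith
        have hc : chi a b = 0 := by
          unfold chi
          rw [if_neg]
          omega
        rw [hz, hc]
        rfl
    · push Not at hb2
      obtain ⟨v1, v2⟩ := arg_of_snd_neg hδ hb2
      have hz : ε = 0 := by
        apply eps_zero
        rw [abs_lt]
        constructor <;> linarith
      have hc : chi a b = 0 := by
        unfold chi
        rw [if_neg]
        omega
      rw [hz, hc]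
      rfl

/-- transfer of the circle lemma to the lattice -/
theorem lattice_of_plane (h : ℂ → ZMod 3) (Bk : ℂ → Prop) (η δ : ℝ) (hδ : 0 < δ)
    (hδ1 : δ ≤ η / 4) (s : ℂ → ZMod 2)
    (hs : ∀ y y' : ℂ, Bk y → Bk y' → y ≠ 0 → y' ≠ 0 → ‖y‖ ≤ 3 / 2 → ‖y'‖ ≤ 3 / 2 →
      ‖y' - y‖ ≤ η / 4 → 0 < (y' / y).re →
      ∀ ε : ℤ, arg y + arg (y' / y) = arg y' + 2 * Real.pi * ε →
        (if h y = h y' then (0 : ZMod 2) else 1) = s y + s y' + (ε : ZMod 2)) :
    ∃ s : Lat → ZMod 2, ∀ a b : Lat, Bk (pos δ a) → Bk (pos δ b) → a ≠ 0 → b ≠ 0 →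
      ‖pos δ a‖ ≤ 3 / 2 → ‖pos δ b‖ ≤ 3 / 2 → adj a b →
        (if h (pos δ a) = h (pos δ b) then (0 : ZMod 2) else 1) = s a + s b + chi a b := by
  refine ⟨fun a => s (pos δ a), ?_⟩
  intro a b hBa hBb ha hb hna hnb hab
  obtain ⟨ε, he⟩ := exists_crossing (pos_ne_zero hδ ha) (pos_ne_zero hδ hb)
  rw [← crossing_chi hδ ha hb hab ε he]
  exact hs _ _ hBa hBb (pos_ne_zero hδ ha) (pos_ne_zero hδ hb) hna hnb
    (by rw [norm_pos_sub hδ hab]; exact hδ1) (ratio_re_pos hδ ha hb hab) ε he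

end Pool.Agent.ClosedPlane.LL
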