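import Pool.Agent.ClosedPlane.CircleLift
import Pool.Agent.ClosedPlane.LatLift

namespace Pool.Agent.ClosedPlane

open Complex

/-- the circle lemma on the lattice -/
theorem lattice_lift (g : ℝ → ZMod 3) (h : ℂ → ZMod 3) (Bk : ℂ → Prop) (η δ : ℝ) (hη : 0 < η)
    (hη1 : η ≤ 1 / 10) (hδ : 0 < δ) (hδ1 : δ ≤ η / 4) (hper : ∀ θ, g (θ + 2 * Real.pi) = g θ)
    (H1 : ∀ θ θ' : ℝ, |‖cexp (θ * I) - cexp (θ' * I)‖ - 1| ≤ η → g θ ≠ g θ')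
    (H2 : ∀ (y : ℂ) (θ : ℝ), Bk y → |‖cexp (θ * I) - y‖ - 1| ≤ η → g θ ≠ h y) :
    ∃ s : Lat → ZMod 2, ∀ a b : Lat, Bk (pos δ a) → Bk (pos δ b) → a ≠ 0 → b ≠ 0 →
      ‖pos δ a‖ ≤ 3 / 2 → ‖pos δ b‖ ≤ 3 / 2 → adj a b →
        (if h (pos δ a) = h (pos δ b) then (0 : ZMod 2) else 1) = s a + s b + chi a b := by
  obtain ⟨s, hs⟩ := circle_lift g h Bk η hη hη1 hper H1 H2
  exact LL.lattice_of_plane h Bk η δ hδ hδ1 s hs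

end Pool.Agent.ClosedPlane
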