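import Pool.Agent.ClosedPlane.LiftOdd

/-! The circle lemma, centre `0`. -/

namespace Pool.Agent.ClosedPlane

open Complex

/-- the lift of the colour `c` just above `x` -/
def upLift (x : ℤ) (c : ZMod 3) : ℤ := if ((x + 1 : ℤ) : ZMod 3) = c then x + 1 else x + 2

lemma upLift_spec (x : ℤ) (c : ZMod 3) (h : (x : ZMod 3) ≠ c) :
    ((upLift x c : ℤ) : ZMod 3) = c := by
  unfold upLift
  split_ifs with h1
  · exact h1
  · push_cast at *
    generalize (x : ZMod 3) = z at *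
    revert z c
    decide

lemma upLift_bounds (x : ℤ) (c : ZMod 3) : x + 1 ≤ upLift x c ∧ upLift x c ≤ x + 2 := by
  unfold upLift
  split_ifs <;> constructor <;> omega

lemma upLift_add (x : ℤ) (c : ZMod 3) (D : ℤ) (hD : (D : ZMod 3) = 0) :
    upLift (x + D) c = upLift x c + D := by
  unfold upLift
  have : ((x + D + 1 : ℤ) : ZMod 3) = ((x + 1 : ℤ) : ZMod 3) := by
    push_cast
    rw [hD]
    ring
  rw [this]
  split_ifs <;> ring

lemma upLift_congr (x x' : ℤ) (c : ZMod 3) (hx : (x : ZMod 3) ≠ c) (hx' : (x' : ZMod 3) ≠ c)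
    (h : |x' - x| ≤ 1) : upLift x c = upLift x' c := by
  have h1 := upLift_spec x c hx
  have h2 := upLift_spec x' c hx'
  have h3 : (((upLift x c - upLift x' c : ℤ)) : ZMod 3) = 0 := by
    push_cast
    rw [h1, h2, sub_self]
  have h4 := dvd_of_cast_eq_zero h3
  have b1 := upLift_bounds x c
  have b2 := upLift_bounds x' c
  rw [abs_le] at h
  omega

lemma upLift_chain (F : ℕ → ℤ) (hF : ∀ k, |F (k + 1) - F k| ≤ 1) (c : ZMod 3) (k k' : ℕ)
    (hkk : k ≤ k') (hc : ∀ j, k ≤ j → j ≤ k' → ((F j : ℤ) : ZMod 3) ≠ c) :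
    upLift (F k) c = upLift (F k') c := by
  induction k', hkk using Nat.le_induction with
  | base => rfl
  | succ n hn ih =>
    rw [ih (fun j h1 h2 => hc j h1 (by omega))]
    exact upLift_congr _ _ c (hc n hn (by omega)) (hc (n + 1) (by omega) le_rfl) (hF n)

lemma upLift_parity (x : ℤ) (c c' : ZMod 3) (hc : (x : ZMod 3) ≠ c) (hc' : (x : ZMod 3) ≠ c') :
    (if c = c' then (0 : ZMod 2) else 1) =
      ((upLift x c : ℤ) : ZMod 2) + ((upLift x c' : ℤ) : ZMod 2) := by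
  by_cases h : c = c'
  · subst h
    rw [if_pos rfl, CharTwo.add_self_eq_zero]
  · rw [if_neg h]
    have b1 := upLift_bounds x c
    have b2 := upLift_bounds x c'
    have hne : upLift x c ≠ upLift x c' := by
      intro he
      apply h
      rw [← upLift_spec x c hc, ← upLift_spec x c' hc', he]
    have hs : upLift x c + upLift x c' = 2 * (x + 1) + 1 := by omega
    rw [← Int.cast_add, hs]
    push_cast
    have : (2 : ZMod 2) = 0 := rfl
    rw [this]
    ring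

/-- the point of the unit circle at distance one of `r e^{iα}` -/
lemma norm_exp_sub_eq_one (r α : ℝ) (h0 : 0 ≤ r) (h2 : r ≤ 2) :
    ‖cexp (((α + Real.arccos (r / 2) : ℝ) : ℂ) * I) - (r : ℂ) * cexp ((α : ℂ) * I)‖ = 1 := by
  have e1 : cexp (((α + Real.arccos (r / 2) : ℝ) : ℂ) * I) - (r : ℂ) * cexp ((α : ℂ) * I) =
      cexp ((α : ℂ) * I) * (cexp ((Real.arccos (r / 2) : ℂ) * I) - r) := by
    push_cast
    rw [add_mul, Complex.exp_add]
    ring
  rw [e1, norm_mul, Complex.norm_exp_ofReal_mul_I, one_mul]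
  have hcos : Real.cos (Real.arccos (r / 2)) = r / 2 :=
    Real.cos_arccos (by linarith) (by linarith)
  have hsin := Real.sin_sq_add_cos_sq (Real.arccos (r / 2))
  rw [hcos] at hsin
  have e2 : cexp ((Real.arccos (r / 2) : ℂ) * I) - r =
      ((r / 2 - r : ℝ) : ℂ) + ((Real.sin (Real.arccos (r / 2)) : ℝ) : ℂ) * I := by
    rw [Complex.exp_mul_I, ← Complex.ofReal_cos, ← Complex.ofReal_sin, hcos]
    push_cast
    ring
  rw [e2, Complex.norm_add_mul_I]
  rw [Real.sqrt_eq_one]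
  nlinarith

lemma norm_exp_sub_exp_le (a b : ℝ) : ‖cexp ((a : ℂ) * I) - cexp ((b : ℂ) * I)‖ ≤ |a - b| := by
  have e : cexp ((a : ℂ) * I) - cexp ((b : ℂ) * I) =
      cexp ((b : ℂ) * I) * (cexp (I * ((a - b : ℝ) : ℂ)) - 1) := by
    rw [mul_sub, ← Complex.exp_add]
    congr 1
    · congr 1
      push_cast
      ring
    · ring
  rw [e, norm_mul, Complex.norm_exp_ofReal_mul_I, one_mul]
  exact Real.norm_exp_I_mul_ofReal_sub_one_le

lemma abs_norm_sub_one_le (z z' w : ℂ) (h : ‖z' - w‖ = 1) (e : ℝ) (he : ‖z - z'‖ ≤ e) :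
    |‖z - w‖ - 1| ≤ e := by
  rw [← h]
  calc |‖z - w‖ - ‖z' - w‖| ≤ ‖(z - w) - (z' - w)‖ := abs_norm_sub_norm_le _ _
    _ = ‖z - z'‖ := by congr 1; ring
    _ ≤ e := he

lemma ne_of_angle (g : ℝ → ZMod 3) (η : ℝ)
    (H1 : ∀ θ θ' : ℝ, |‖cexp (θ * I) - cexp (θ' * I)‖ - 1| ≤ η → g θ ≠ g θ') (θ θ' : ℝ)
    (h : |θ' - (θ + Real.pi / 3)| ≤ η) : g θ ≠ g θ' := by
  refine (H1 θ' θ ?_).symm
  have h3 : Real.arccos ((1 : ℝ) / 2) = Real.pi / 3 := by
    rw [← Real.cos_pi_div_three, Real.arccos_cos (by positivity) (by linarith [Real.pi_pos])]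
  have h1 := norm_exp_sub_eq_one 1 θ (by norm_num) (by norm_num)
  rw [h3, Complex.ofReal_one, one_mul] at h1
  refine abs_norm_sub_one_le _ _ _ h1 _ ?_
  exact (norm_exp_sub_exp_le _ _).trans h

/-- intermediate values -/
lemma angle_between (y y' : ℂ) (hy : y ≠ 0) (h1 : ‖y‖ ≤ 3 / 2) (h2 : ‖y'‖ ≤ 3 / 2)
    (hre : 0 < (y' / y).re) (e : ℝ) (he : ‖y' - y‖ ≤ e) (θ : ℝ)
    (hθ : θ ∈ Set.uIcc (arg y + Real.arccos (‖y‖ / 2))
      (arg y + arg (y' / y) + Real.arccos (‖y'‖ / 2))) :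
    |‖cexp (θ * I) - y‖ - 1| ≤ e ∧ |‖cexp (θ * I) - y'‖ - 1| ≤ e := by
  set Y : ℝ → ℂ := fun t => y + (t : ℂ) * (y' - y) with hY
  have hYc : Continuous Y := by
    rw [hY]
    fun_prop
  set f : ℝ → ℝ := fun t => arg y + arg (Y t / y) + Real.arccos (‖Y t‖ / 2) with hf
  have hquot : ∀ t, Y t / y = ((1 - t : ℝ) : ℂ) + (t : ℂ) * (y' / y) := by
    intro t
    rw [hY]
    push_cast
    field_simp
    ring
  have hpos : ∀ t ∈ Set.Icc (0 : ℝ) 1, 0 < (Y t / y).re := by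
    intro t ht
    rw [hquot]
    simp only [Complex.add_re, Complex.ofReal_re, Complex.re_ofReal_mul]
    rcases eq_or_lt_of_le ht.1 with h | h
    · rw [← h]
      norm_num
    · have := mul_pos h hre
      linarith [ht.2]
  have hfc : ContinuousOn f (Set.Icc 0 1) := by
    intro t ht
    apply ContinuousAt.continuousWithinAt
    apply ContinuousAt.add
    · apply ContinuousAt.add continuousAt_const
      have : ContinuousAt (fun t => Y t / y) t := (hYc.div_const y).continuousAt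
      exact ContinuousAt.comp (f := fun t => Y t / y) (g := arg)
        (Complex.continuousAt_arg (Or.inl (hpos t ht))) this
    · exact (Real.continuous_arccos.comp ((continuous_norm.comp hYc).div_const 2)).continuousAt
  have hf0 : f 0 = arg y + Real.arccos (‖y‖ / 2) := by
    rw [hf]
    simp [hY, hy]
  have hf1 : f 1 = arg y + arg (y' / y) + Real.arccos (‖y'‖ / 2) := by
    rw [hf]
    simp [hY]
  rw [← hf0, ← hf1] at hθ
  have hIV := intermediate_value_uIcc (a := (0 : ℝ)) (b := 1) (f := f)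
    (by rw [Set.uIcc_of_le zero_le_one]; exact hfc)
  obtain ⟨t, ht, hft⟩ := hIV hθ
  rw [Set.uIcc_of_le zero_le_one] at ht
  -- the norm of `Y t`
  have hYn : ‖Y t‖ ≤ 2 := by
    have e1 : Y t = ((1 - t : ℝ) : ℂ) * y + (t : ℂ) * y' := by
      rw [hY]
      push_cast
      ring
    rw [e1]
    refine (norm_add_le _ _).trans ?_
    rw [norm_mul, norm_mul, Complex.norm_real, Complex.norm_real, Real.norm_eq_abs,
      Real.norm_eq_abs, abs_of_nonneg (by linarith [ht.2] : (0 : ℝ) ≤ 1 - t), abs_of_nonneg ht.1]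
    nlinarith [ht.1, ht.2, norm_nonneg y, norm_nonneg y']
  have hYp : ((‖Y t‖ : ℝ) : ℂ) * cexp (((arg y + arg (Y t / y) : ℝ) : ℂ) * I) = Y t := by
    have a1 := Complex.norm_mul_exp_arg_mul_I y
    have a2 := Complex.norm_mul_exp_arg_mul_I (Y t / y)
    have a3 : (‖Y t‖ : ℝ) = ‖y‖ * ‖Y t / y‖ := by
      rw [← norm_mul, mul_div_cancel₀ _ hy]
    have a4 : y * (Y t / y) = Y t := mul_div_cancel₀ _ hy
    calc ((‖Y t‖ : ℝ) : ℂ) * cexp (((arg y + arg (Y t / y) : ℝ) : ℂ) * I)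
        = (((‖y‖ : ℝ) : ℂ) * cexp ((arg y : ℂ) * I)) *
          (((‖Y t / y‖ : ℝ) : ℂ) * cexp ((arg (Y t / y) : ℂ) * I)) := by
          rw [a3]
          push_cast
          rw [add_mul, Complex.exp_add]
          ring
      _ = y * (Y t / y) := by rw [a1, a2]
      _ = Y t := a4
  have key : ‖cexp (θ * I) - Y t‖ = 1 := by
    have := norm_exp_sub_eq_one ‖Y t‖ (arg y + arg (Y t / y)) (norm_nonneg _) hYn
    rw [hYp] at this
    rw [← hft]
    exact this
  have d1 : ‖Y t - y‖ ≤ e := by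
    have : Y t - y = (t : ℂ) * (y' - y) := by rw [hY]; ring
    rw [this, norm_mul, Complex.norm_real, Real.norm_eq_abs, abs_of_nonneg ht.1]
    nlinarith [ht.1, ht.2, norm_nonneg (y' - y)]
  have d2 : ‖Y t - y'‖ ≤ e := by
    have : Y t - y' = ((1 - t : ℝ) : ℂ) * (y - y') := by rw [hY]; push_cast; ring
    rw [this, norm_mul, Complex.norm_real, Real.norm_eq_abs,
      abs_of_nonneg (by linarith [ht.2] : (0 : ℝ) ≤ 1 - t), norm_sub_rev]
    nlinarith [ht.1, ht.2, norm_nonneg (y' - y)]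
  constructor
  · rw [← key]
    calc |‖cexp (θ * I) - y‖ - ‖cexp (θ * I) - Y t‖|
        ≤ ‖(cexp (θ * I) - y) - (cexp (θ * I) - Y t)‖ := abs_norm_sub_norm_le _ _
      _ = ‖Y t - y‖ := by congr 1; ring
      _ ≤ e := d1
  · rw [← key]
    calc |‖cexp (θ * I) - y'‖ - ‖cexp (θ * I) - Y t‖|
        ≤ ‖(cexp (θ * I) - y') - (cexp (θ * I) - Y t)‖ := abs_norm_sub_norm_le _ _
      _ = ‖Y t - y'‖ := by congr 1; ring
      _ ≤ e := d2

/-- natural numbers between two floors -/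
lemma between_floor (A B : ℝ) (hA : 0 ≤ A) (hB : 0 ≤ B) (k : ℕ) (h1 : min ⌊A⌋₊ ⌊B⌋₊ ≤ k)
    (h2 : k ≤ max ⌊A⌋₊ ⌊B⌋₊) : ∃ x ∈ Set.uIcc A B, |(k : ℝ) - x| ≤ 1 := by
  have hk2 : (k : ℝ) ≤ max A B := by
    rcases le_max_iff.1 h2 with h | h
    · exact le_trans ((Nat.le_floor_iff hA).1 h) (le_max_left _ _)
    · exact le_trans ((Nat.le_floor_iff hB).1 h) (le_max_right _ _)
  have hk1 : min A B < (k : ℝ) + 1 := by
    rcases min_le_iff.1 h1 with h | h
    · refine lt_of_le_of_lt (min_le_left _ _) ?_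
      have := Nat.lt_floor_add_one A
      have h' : ((⌊A⌋₊ : ℕ) : ℝ) ≤ k := by exact_mod_cast h
      linarith
    · refine lt_of_le_of_lt (min_le_right _ _) ?_
      have := Nat.lt_floor_add_one B
      have h' : ((⌊B⌋₊ : ℕ) : ℝ) ≤ k := by exact_mod_cast h
      linarith
  by_cases hc : min A B ≤ (k : ℝ)
  · exact ⟨k, ⟨hc, hk2⟩, by simp⟩
  · push Not at hc
    refine ⟨min A B, ⟨le_rfl, min_le_max⟩, ?_⟩
    rw [abs_le]
    constructor <;> linarith

/-- the circle lemma, centre `0` -/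
theorem circle_lift (g : ℝ → ZMod 3) (h : ℂ → ZMod 3) (Bk : ℂ → Prop) (η : ℝ) (hη : 0 < η)
    (hη1 : η ≤ 1 / 10) (hper : ∀ θ, g (θ + 2 * Real.pi) = g θ)
    (H1 : ∀ θ θ' : ℝ, |‖cexp (θ * I) - cexp (θ' * I)‖ - 1| ≤ η → g θ ≠ g θ')
    (H2 : ∀ (y : ℂ) (θ : ℝ), Bk y → |‖cexp (θ * I) - y‖ - 1| ≤ η → g θ ≠ h y) :
    ∃ s : ℂ → ZMod 2, ∀ y y' : ℂ, Bk y → Bk y' → y ≠ 0 → y' ≠ 0 → ‖y‖ ≤ 3 / 2 → ‖y'‖ ≤ 3 / 2 →
      ‖y' - y‖ ≤ η / 4 → 0 < (y' / y).re →
      ∀ ε : ℤ, arg y + arg (y' / y) = arg y' + 2 * Real.pi * ε →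
        (if h y = h y' then (0 : ZMod 2) else 1) = s y + s y' + (ε : ZMod 2) := by
  have hpi := Real.pi_pos
  -- the mesh on the circle
  obtain ⟨M, hM1, hMη⟩ : ∃ M : ℕ, 1 ≤ M ∧ Real.pi / (3 * M) ≤ η / 2 := by
    refine ⟨⌈4 / η⌉₊ + 1, by omega, ?_⟩
    have h1 : 4 / η ≤ ((⌈4 / η⌉₊ + 1 : ℕ) : ℝ) := by
      push_cast
      linarith [Nat.le_ceil (4 / η)]
    have h2 : 0 < ((⌈4 / η⌉₊ + 1 : ℕ) : ℝ) := by positivity
    rw [div_le_iff₀ (by positivity)]
    have h3 : 4 ≤ η * ((⌈4 / η⌉₊ + 1 : ℕ) : ℝ) := by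
      rw [div_le_iff₀ hη] at h1
      linarith
    nlinarith [Real.pi_lt_four]
  have hM0 : (0 : ℝ) < M := by exact_mod_cast hM1
  set τ : ℝ := Real.pi / (3 * M) with hτ
  have hτ0 : 0 < τ := by positivity
  have hτM : (M : ℝ) * τ = Real.pi / 3 := by
    rw [hτ]
    field_simp
  set G : ℕ → ZMod 3 := fun k => g (k * τ - 4 * Real.pi) with hG
  have hGper : ∀ k, G (k + 6 * M) = G k := by
    intro k
    simp only [hG]
    rw [← hper (k * τ - 4 * Real.pi)]
    congr 1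
    push_cast
    linear_combination 6 * hτM
  have hG0 : ∀ k, G k ≠ G (k + M) := by
    intro k
    apply ne_of_angle g η H1
    have : ((k + M : ℕ) : ℝ) * τ - 4 * Real.pi - (k * τ - 4 * Real.pi + Real.pi / 3) = 0 := by
      push_cast
      linear_combination hτM
    rw [this, abs_zero]
    exact hη.le
  have hG1 : ∀ k, G (k + 1) ≠ G (k + M) := by
    intro k
    apply ne_of_angle g η H1
    have : ((k + M : ℕ) : ℝ) * τ - 4 * Real.pi -
        (((k + 1 : ℕ) : ℝ) * τ - 4 * Real.pi + Real.pi / 3) = -τ := by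
      push_cast
      linear_combination hτM
    rw [this, abs_neg, abs_of_pos hτ0]
    linarith
  have hG2 : ∀ k, G k ≠ G (k + M + 1) := by
    intro k
    apply ne_of_angle g η H1
    have : ((k + M + 1 : ℕ) : ℝ) * τ - 4 * Real.pi - (k * τ - 4 * Real.pi + Real.pi / 3) = τ := by
      push_cast
      linear_combination hτM
    rw [this, abs_of_pos hτ0]
    linarith
  obtain ⟨F, hF1, hF2, D, hD, hF3⟩ := lift_odd M hM1 G hGper hG0 hG1 hG2
  have hD3 : ((D : ℤ) : ZMod 3) = 0 := by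
    have h1 := hF1 (0 + 6 * M)
    rw [hF3 0, hGper, Int.cast_add, hF1] at h1
    simpa using h1
  have hFn : ∀ n k : ℕ, F (k + 6 * M * n) = F k + n * D := by
    intro n
    induction n with
    | zero => intro k; simp
    | succ n ih =>
      intro k
      have e1 : k + 6 * M * (n + 1) = k + 6 * M * n + 6 * M := by ring
      rw [e1, hF3, ih]
      push_cast
      ring
  -- the index of a point
  set K : ℂ → ℕ := fun y => ⌊(arg y + Real.arccos (‖y‖ / 2) + 4 * Real.pi) / τ⌋₊ with hK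
  refine ⟨fun y => ((upLift (F (K y)) (h y) : ℤ) : ZMod 2), ?_⟩
  intro y y' hBy hBy' hy hy' hn hn' hd hre ε hε
  have ha1 : -Real.pi < arg y := Complex.neg_pi_lt_arg y
  have ha2 : -Real.pi < arg y' := Complex.neg_pi_lt_arg y'
  have ha3 : -Real.pi < arg (y' / y) := Complex.neg_pi_lt_arg _
  have hc1 := Real.arccos_nonneg (‖y‖ / 2)
  have hc2 := Real.arccos_nonneg (‖y'‖ / 2)
  set A : ℝ := (arg y + Real.arccos (‖y‖ / 2) + 4 * Real.pi) / τ with hA
  set B : ℝ := (arg y + arg (y' / y) + Real.arccos (‖y'‖ / 2) + 4 * Real.pi) / τ with hB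
  set B' : ℝ := (arg y' + Real.arccos (‖y'‖ / 2) + 4 * Real.pi) / τ with hB'
  have hA0 : 0 ≤ A := div_nonneg (by linarith) hτ0.le
  have hB0 : 0 ≤ B := div_nonneg (by linarith) hτ0.le
  have hB'0 : 0 ≤ B' := div_nonneg (by linarith) hτ0.le
  have hBB : B = B' + 6 * M * ε := by
    rw [hB, hB', hε]
    field_simp
    linear_combination (-6 * (ε : ℝ)) * hτM
  have hKy : K y = ⌊A⌋₊ := rfl
  have hKy' : K y' = ⌊B'⌋₊ := rfl
  have hbetween : ∀ k : ℕ, min ⌊A⌋₊ ⌊B⌋₊ ≤ k → k ≤ max ⌊A⌋₊ ⌊B⌋₊ →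
      ((F k : ℤ) : ZMod 3) ≠ h y ∧ ((F k : ℤ) : ZMod 3) ≠ h y' := by
    intro k hk1 hk2
    obtain ⟨x, hx, hxk⟩ := between_floor A B hA0 hB0 k hk1 hk2
    have hθ : x * τ - 4 * Real.pi ∈ Set.uIcc (arg y + Real.arccos (‖y‖ / 2))
        (arg y + arg (y' / y) + Real.arccos (‖y'‖ / 2)) := by
      have e1 : A * τ = arg y + Real.arccos (‖y‖ / 2) + 4 * Real.pi := div_mul_cancel₀ _ hτ0.ne'
      have e2 : B * τ = arg y + arg (y' / y) + Real.arccos (‖y'‖ / 2) + 4 * Real.pi :=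
        div_mul_cancel₀ _ hτ0.ne'
      rw [Set.mem_uIcc] at hx ⊢
      rcases hx with hx | hx
      · left
        constructor <;> nlinarith [hx.1, hx.2]
      · right
        constructor <;> nlinarith [hx.1, hx.2]
    have hab := angle_between y y' hy hn hn' hre (η / 4) hd _ hθ
    have hclose : ‖cexp (((k * τ - 4 * Real.pi : ℝ) : ℂ) * I) -
        cexp (((x * τ - 4 * Real.pi : ℝ) : ℂ) * I)‖ ≤ η / 2 := by
      refine (norm_exp_sub_exp_le _ _).trans ?_
      have : (k : ℝ) * τ - 4 * Real.pi - (x * τ - 4 * Real.pi) = (k - x) * τ := by ring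
      rw [this, abs_mul, abs_of_pos hτ0]
      nlinarith
    rw [hF1]
    have hgen : ∀ w : ℂ, |‖cexp (((x * τ - 4 * Real.pi : ℝ) : ℂ) * I) - w‖ - 1| ≤ η / 4 →
        |‖cexp (((k * τ - 4 * Real.pi : ℝ) : ℂ) * I) - w‖ - 1| ≤ η := by
      intro w hw
      have h3 : |‖cexp (((k * τ - 4 * Real.pi : ℝ) : ℂ) * I) - w‖ -
          ‖cexp (((x * τ - 4 * Real.pi : ℝ) : ℂ) * I) - w‖| ≤ η / 2 := by
        refine (abs_norm_sub_norm_le _ _).trans ?_
        have : cexp (((k * τ - 4 * Real.pi : ℝ) : ℂ) * I) - w -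
            (cexp (((x * τ - 4 * Real.pi : ℝ) : ℂ) * I) - w) =
            cexp (((k * τ - 4 * Real.pi : ℝ) : ℂ) * I) -
              cexp (((x * τ - 4 * Real.pi : ℝ) : ℂ) * I) := by ring
        rw [this]
        exact hclose
      rw [abs_le] at hw h3 ⊢
      constructor <;> linarith [h3.1, h3.2, hw.1, hw.2]
    exact ⟨H2 y _ hBy (hgen y hab.1), H2 y' _ hBy' (hgen y' hab.2)⟩
  -- the chain
  have hchain : ∀ c : ZMod 3, (∀ k : ℕ, min ⌊A⌋₊ ⌊B⌋₊ ≤ k → k ≤ max ⌊A⌋₊ ⌊B⌋₊ →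
      ((F k : ℤ) : ZMod 3) ≠ c) → upLift (F ⌊A⌋₊) c = upLift (F ⌊B⌋₊) c := by
    intro c hc
    rcases le_total ⌊A⌋₊ ⌊B⌋₊ with hle | hle
    · exact upLift_chain F hF2 c _ _ hle (fun j h1 h2 => hc j
        ((min_le_left _ _).trans h1) (h2.trans (le_max_right _ _)))
    · exact (upLift_chain F hF2 c _ _ hle (fun j h1 h2 => hc j
        ((min_le_right _ _).trans h1) (h2.trans (le_max_left _ _)))).symm
  have hch1 := hchain (h y) (fun k h1 h2 => (hbetween k h1 h2).1)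
  have hFB : F ⌊B⌋₊ = F ⌊B'⌋₊ + ε * D := by
    rcases Int.eq_nat_or_neg ε with ⟨n, rfl | rfl⟩
    · have e1 : B = B' + ((6 * M * n : ℕ) : ℝ) := by
        rw [hBB]
        push_cast
        ring
      rw [e1, Nat.floor_add_natCast hB'0, hFn]
    · have e1 : B' = B + ((6 * M * n : ℕ) : ℝ) := by
        rw [hBB]
        push_cast
        ring
      rw [e1, Nat.floor_add_natCast hB0, hFn]
      ring
  have hεD : ((ε * D : ℤ) : ZMod 3) = 0 := by
    rw [Int.cast_mul, hD3, mul_zero]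
  have hlast := hbetween ⌊B⌋₊ (min_le_right _ _) (le_max_right _ _)
  have hpar := upLift_parity (F ⌊B⌋₊) (h y) (h y') hlast.1 hlast.2
  rw [← hch1] at hpar
  rw [hpar, hFB, upLift_add _ _ _ hεD]
  have hD2 : ((D : ℤ) : ZMod 2) = 1 := by
    obtain ⟨m, rfl⟩ := hD
    push_cast
    have : (2 : ZMod 2) = 0 := rfl
    rw [this]
    ring
  show _ = ((upLift (F (K y)) (h y) : ℤ) : ZMod 2) + ((upLift (F (K y')) (h y') : ℤ) : ZMod 2) + _
  rw [hKy, hKy']
  push_cast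
  rw [hD2]
  ring

end Pool.Agent.ClosedPlane
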