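import Pool.Agent.ClosedPlane.Circ

namespace Pool.Agent.ClosedPlane

open Complex

variable {c : ℂ → Fin 6} {η δ : ℝ}

theorem perm_a (x y z : Fin 6) : ({x, y, z} : Finset (Fin 6)) = {z, x, y} := by
  ext u; simp only [Finset.mem_insert, Finset.mem_singleton]; tauto

theorem perm_b (x y z : Fin 6) : ({x, y, z} : Finset (Fin 6)) = {y, x, z} := by
  ext u; simp only [Finset.mem_insert, Finset.mem_singleton]; tauto

theorem perm_c (x y z : Fin 6) : ({x, y, z} : Finset (Fin 6)) = {x, z, y} := by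
  ext u; simp only [Finset.mem_insert, Finset.mem_singleton]; tauto

theorem sum4 (Z : Finset (Fin 6) → ZMod 2) {i j k1 k2 k3 k4 : Fin 6}
    (h : [i, j, k1, k2, k3, k4].Nodup) :
    ∑ k ∈ Finset.univ \ {i, j}, Z {i, j, k}
      = Z {i, j, k1} + Z {i, j, k2} + Z {i, j, k3} + Z {i, j, k4} := by
  have hset : Finset.univ \ ({i, j} : Finset (Fin 6)) = {k1, k2, k3, k4} := by
    symm
    apply Finset.eq_of_subset_of_card_le
    · intro u hu
      simp only [Finset.mem_insert, Finset.mem_singleton] at hu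
      simp only [Finset.mem_sdiff, Finset.mem_univ, true_and, Finset.mem_insert,
        Finset.mem_singleton]
      simp only [List.nodup_cons, List.mem_cons, List.not_mem_nil, or_false, not_or] at h
      rintro (rfl | rfl)
      · rcases hu with h' | h' | h' | h' <;> subst h' <;> simp_all
      · rcases hu with h' | h' | h' | h' <;> subst h' <;> simp_all
    · have h1 : (Finset.univ \ ({i, j} : Finset (Fin 6))).card = 4 := by
        rw [Finset.card_sdiff_of_subset (Finset.subset_univ _)]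
        have : i ≠ j := by
          rintro rfl; simp at h
        rw [Finset.card_pair this]; rfl
      have h2 : ({k1, k2, k3, k4} : Finset (Fin 6)).card = 4 := by
        have : ([k1, k2, k3, k4] : List (Fin 6)).Nodup := by
          rw [List.nodup_cons, List.nodup_cons] at h
          exact h.2.2
        have h3 := List.toFinset_card_of_nodup this
        simpa using h3
      rw [h1, h2]
  rw [hset]
  simp only [List.nodup_cons, List.mem_cons, List.not_mem_nil, or_false, not_or] at h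
  rw [Finset.sum_insert (by simp; tauto), Finset.sum_insert (by simp; tauto),
    Finset.sum_insert (by simp; tauto), Finset.sum_singleton]
  ring

theorem zz_zero {f : Lat → Fin 6} {x : Lat} {T : Finset (Fin 6)}
    (h : ∀ t ∈ ball δ x, cols f t ≠ T) : zz f δ x T = 0 := by
  unfold zz
  apply Finset.sum_eq_zero
  intro t ht
  rw [if_neg (h t ht)]

/-- no complementary triangles near `p` -/
theorem Setup.comp0 (S : Setup c η δ) {x y z p : Lat} (hx : ‖pos δ x‖ ≤ 7)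
    (hxy : D δ x y ≤ δ) (hxz : D δ x z ≤ δ) (hd : D δ x p ≤ 1) {i j k : Fin 6}
    (hn : [c (pos δ x), c (pos δ y), c (pos δ z), i, j, k].Nodup) :
    zz (c ∘ pos δ) δ p {i, j, k} = 0 := by
  apply zz_zero
  intro t ht hcol
  have hi : i ∈ cols (c ∘ pos δ) t := by rw [hcol]; simp
  have hj : j ∈ cols (c ∘ pos δ) t := by rw [hcol]; simp
  have hk : k ∈ cols (c ∘ pos δ) t := by rw [hcol]; simp
  rw [mem_cols] at hi hj hk
  obtain ⟨pi, hpi, hpi2⟩ := hi
  obtain ⟨pj, hpj, hpj2⟩ := hj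
  obtain ⟨pk, hpk, hpk2⟩ := hk
  rw [mem_ball' S.hδ] at ht
  have h1 := ht pi hpi
  have h2 := D_tri δ x p pi
  rw [D_comm δ p pi] at h2
  simp only [Function.comp_apply] at hpi2 hpj2 hpk2
  subst hpi2 hpj2 hpk2
  exact S.far hx hxy hxz (D_V S.hδ hpi hpj) (D_V S.hδ hpi hpk) (by linarith) hn

/-- the colour set `{0,1,2} \ {a} ∪ {b}` -/
def oth (a b : Fin 6) : Finset (Fin 6) := insert b ((({0, 1, 2} : Finset (Fin 6))).erase a)

def zs (Z : Finset (Fin 6) → ZMod 2) (a : Fin 6) : ZMod 2 :=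
  Z {a, 3, 4} + Z {a, 4, 5} + Z {a, 3, 5}

def GG (Z : Finset (Fin 6) → ZMod 2) (a b : Fin 6) : ZMod 2 := Z (oth a b) + zs Z a

theorem white_split : ∀ a : Fin 6, a.val < 3 → ∃ a1 a2 : Fin 6, a1.val < 3 ∧ a2.val < 3 ∧
    a ≠ a1 ∧ a ≠ a2 ∧ a1 ≠ a2 ∧ (({0, 1, 2} : Finset (Fin 6))).erase a = {a1, a2} ∧
    ({a1, a2, a} : Finset (Fin 6)) = {0, 1, 2} := by decide

theorem white_split2 : ∀ a a1 : Fin 6, a.val < 3 → a1.val < 3 → a ≠ a1 → ∃ a2 : Fin 6,
    a2.val < 3 ∧ a ≠ a2 ∧ a1 ≠ a2 ∧ (({0, 1, 2} : Finset (Fin 6))).erase a = {a1, a2} ∧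
    (({0, 1, 2} : Finset (Fin 6))).erase a1 = {a, a2} := by decide

theorem black_split2 : ∀ b b1 : Fin 6, ¬ b.val < 3 → ¬ b1.val < 3 → b ≠ b1 → ∃ b2 : Fin 6,
    ¬ b2.val < 3 ∧ b ≠ b2 ∧ b1 ≠ b2 := by decide

theorem black_split : ∀ b : Fin 6, ¬ b.val < 3 → ∃ b1 b2 : Fin 6,
    ¬ b1.val < 3 ∧ ¬ b2.val < 3 ∧ b ≠ b1 ∧ b ≠ b2 ∧ b1 ≠ b2 := by decide

theorem black_set : ∀ b b1 b2 : Fin 6, ¬ b.val < 3 → ¬ b1.val < 3 → ¬ b2.val < 3 →
    b ≠ b1 → b ≠ b2 → b1 ≠ b2 → ({b, b1, b2} : Finset (Fin 6)) = {3, 4, 5} := by decide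

theorem zs_perm (Z : Finset (Fin 6) → ZMod 2) (a : Fin 6) {b b1 b2 : Fin 6} (hb : ¬ b.val < 3)
    (hb1 : ¬ b1.val < 3) (hb2 : ¬ b2.val < 3) (h1 : b ≠ b1) (h2 : b ≠ b2) (h3 : b1 ≠ b2) :
    zs Z a = Z {a, b, b1} + Z {a, b, b2} + Z {a, b1, b2} := by
  have key : ∀ Y : Fin 6 → Fin 6 → ZMod 2, (∀ p q, Y p q = Y q p) → ∀ b b1 b2 : Fin 6,
      ¬ b.val < 3 → ¬ b1.val < 3 → ¬ b2.val < 3 → b ≠ b1 → b ≠ b2 → b1 ≠ b2 →
      Y 3 4 + Y 4 5 + Y 3 5 = Y b b1 + Y b b2 + Y b1 b2 := by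
    intro Y hY b b1 b2 hb hb1 hb2 h1 h2 h3
    have hc : ∀ u : Fin 6, ¬ u.val < 3 → u = 3 ∨ u = 4 ∨ u = 5 := by decide
    rcases hc b hb with rfl | rfl | rfl <;> rcases hc b1 hb1 with rfl | rfl | rfl <;>
      rcases hc b2 hb2 with rfl | rfl | rfl <;> first
      | exact absurd rfl h1
      | exact absurd rfl h2
      | exact absurd rfl h3
      | skip
    all_goals (try simp only [hY 4 3, hY 5 3, hY 5 4])
    all_goals ring
  exact key (fun p q => Z {a, p, q}) (fun p q => by rw [perm_c]) b b1 b2 hb hb1 hb2 h1 h2 h3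

theorem ne_of_wb {a b : Fin 6} (ha : a.val < 3) (hb : ¬ b.val < 3) : a ≠ b := by
  rintro rfl; exact hb ha

end Pool.Agent.ClosedPlane
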