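import Mathlib

/-! A seven-colouring of the plane by closed, pairwise congruent, unit-distance-free sets. -/

namespace Pool.Agent.ClosedPlane

/-- no two points of `S` are at distance exactly one -/
def UnitFree (S : Set (EuclideanSpace ℝ (Fin 2))) : Prop := ∀ x ∈ S, ∀ y ∈ S, dist x y ≠ 1

/-- the closed brick with index `(j, k)` of the class `i` -/
def brick (i : Fin 7) (q : ℤ × ℤ) : Set (EuclideanSpace ℝ (Fin 2)) :=
  {p | |p 0 - (46 / 25 * (q.1 : ℝ) + 28 / 5 * (q.2 : ℝ) + 4 / 5 * (i.val : ℝ))| ≤ 2 / 5 ∧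
    |p 1 - 11 / 20 * (q.1 : ℝ)| ≤ 11 / 40}

/-- the union of the bricks of class `i` -/
def brickClass (i : Fin 7) : Set (EuclideanSpace ℝ (Fin 2)) := ⋃ q : ℤ × ℤ, brick i q

lemma isClosed_brick (i : Fin 7) (q : ℤ × ℤ) : IsClosed (brick i q) := by
  unfold brick
  have c0 : Continuous fun p : EuclideanSpace ℝ (Fin 2) => p 0 := by fun_prop
  have c1 : Continuous fun p : EuclideanSpace ℝ (Fin 2) => p 1 := by fun_prop
  exact (isClosed_le ((c0.sub continuous_const).abs) continuous_const).inter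
    (isClosed_le ((c1.sub continuous_const).abs) continuous_const)

lemma abs_coord_le_dist (x y : EuclideanSpace ℝ (Fin 2)) (i : Fin 2) :
    |x i - y i| ≤ dist x y := by
  rw [EuclideanSpace.dist_eq]
  apply Real.le_sqrt_of_sq_le
  rw [sq_abs]
  have : (x i - y i) ^ 2 = (dist (x i) (y i)) ^ 2 := by rw [Real.dist_eq, sq_abs]
  rw [this]
  exact Finset.single_le_sum (f := fun i => dist (x i) (y i) ^ 2) (fun j _ => sq_nonneg _)
    (Finset.mem_univ i)

lemma dist_sq_eq (x y : EuclideanSpace ℝ (Fin 2)) :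
    dist x y ^ 2 = (x 0 - y 0) ^ 2 + (x 1 - y 1) ^ 2 := by
  rw [EuclideanSpace.dist_eq, Real.sq_sqrt (Finset.sum_nonneg fun _ _ => sq_nonneg _)]
  simp [Fin.sum_univ_two, Real.dist_eq, sq_abs]

lemma locallyFinite_brick (i : Fin 7) : LocallyFinite (brick i) := by
  intro p
  refine ⟨Metric.ball p 1, Metric.ball_mem_nhds p one_pos, ?_⟩
  obtain ⟨N, hN⟩ := exists_nat_ge (100 * (|p 0| + |p 1| + 10))
  refine ((Set.finite_Icc (-(N : ℤ)) N).prod (Set.finite_Icc (-(N : ℤ)) N)).subset ?_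
  rintro ⟨j, k⟩ ⟨z, ⟨hz0, hz1⟩, hzp⟩
  rw [Metric.mem_ball] at hzp
  have h0 := (abs_coord_le_dist z p 0).trans hzp.le
  have h1 := (abs_coord_le_dist z p 1).trans hzp.le
  simp only at hz0 hz1
  have hi0 : (0 : ℝ) ≤ (i.val : ℝ) := Nat.cast_nonneg _
  have hi6 : (i.val : ℝ) ≤ 6 := by
    have : i.val ≤ 6 := by omega
    exact_mod_cast this
  rw [abs_le] at h0 h1 hz0 hz1
  have ha0 := abs_le.1 (le_refl |p 0|)
  have ha1 := abs_le.1 (le_refl |p 1|)
  have hp0 := abs_nonneg (p 0)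
  have hp1 := abs_nonneg (p 1)
  obtain ⟨a1, a2⟩ := h0
  obtain ⟨b1, b2⟩ := h1
  obtain ⟨c1, c2⟩ := hz0
  obtain ⟨d1, d2⟩ := hz1
  obtain ⟨e1, e2⟩ := ha0
  obtain ⟨f1, f2⟩ := ha1
  have key1 : -(N : ℝ) ≤ (j : ℝ) := by linarith
  have key2 : (j : ℝ) ≤ N := by linarith
  have key3 : -(N : ℝ) ≤ (k : ℝ) := by linarith
  have key4 : (k : ℝ) ≤ N := by linarith
  refine ⟨⟨?_, ?_⟩, ⟨?_, ?_⟩⟩
  · exact_mod_cast key1
  · exact_mod_cast key2
  · exact_mod_cast key3
  · exact_mod_cast key4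

lemma isClosed_brickClass (i : Fin 7) : IsClosed (brickClass i) :=
  (locallyFinite_brick i).isClosed_iUnion (isClosed_brick i)

/-- integers `j`, `k` are either small or one of the two linear forms is large -/
lemma int_cases (j k : ℤ) : (j = 0 ∧ k = 0) ∨ (3 ≤ |j|) ∨
    (45 ≤ |46 * j + 140 * k|) := by
  by_cases h3 : 3 ≤ |j|
  · exact Or.inr (Or.inl h3)
  · push Not at h3
    rw [abs_lt] at h3
    obtain ⟨l, u⟩ := h3
    have hj : j = -2 ∨ j = -1 ∨ j = 0 ∨ j = 1 ∨ j = 2 := by omega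
    rcases hj with rfl | rfl | rfl | rfl | rfl
    · right; right; rw [le_abs]; omega
    · right; right; rw [le_abs]; omega
    · by_cases hk : k = 0
      · exact Or.inl ⟨rfl, hk⟩
      · right; right; rw [le_abs]; omega
    · right; right; rw [le_abs]; omega
    · right; right; rw [le_abs]; omega

lemma unitFree_brickClass (i : Fin 7) : UnitFree (brickClass i) := by
  intro x hx y hy hd
  simp only [brickClass, Set.mem_iUnion] at hx hy
  obtain ⟨⟨j, k⟩, hx0, hx1⟩ := hx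
  obtain ⟨⟨j', k'⟩, hy0, hy1⟩ := hy
  simp only at hx0 hx1 hy0 hy1
  have hsq := dist_sq_eq x y
  rw [hd, one_pow] at hsq
  rw [abs_le] at hx0 hx1 hy0 hy1
  have hX : |x 0 - y 0| ≤ 1 := by rw [← hd]; exact abs_coord_le_dist x y 0
  have hY : |x 1 - y 1| ≤ 1 := by rw [← hd]; exact abs_coord_le_dist x y 1
  rcases int_cases (j - j') (k - k') with ⟨h1, h2⟩ | h | h
  · have e1 : j = j' := by omega
    have e2 : k = k' := by omega
    subst e1 e2
    have b0 : |x 0 - y 0| ≤ 4 / 5 := by rw [abs_le]; constructor <;> linarith [hx0.1, hx0.2, hy0.1, hy0.2]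
    have b1 : |x 1 - y 1| ≤ 11 / 20 := by rw [abs_le]; constructor <;> linarith [hx1.1, hx1.2, hy1.1, hy1.2]
    have c0 : (x 0 - y 0) ^ 2 ≤ (4 / 5) ^ 2 := sq_le_sq' (abs_le.1 b0).1 (abs_le.1 b0).2
    have c1 : (x 1 - y 1) ^ 2 ≤ (11 / 20) ^ 2 := sq_le_sq' (abs_le.1 b1).1 (abs_le.1 b1).2
    nlinarith
  · rw [abs_le] at hY
    rw [le_abs] at h
    rcases h with h | h
    · have hr : (3 : ℝ) ≤ (j : ℝ) - j' := by exact_mod_cast h
      linarith [hx1.1, hx1.2, hy1.1, hy1.2, hY.1, hY.2]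
    · have hr : (3 : ℝ) ≤ -((j : ℝ) - j') := by exact_mod_cast h
      linarith [hx1.1, hx1.2, hy1.1, hy1.2, hY.1, hY.2]
  · rw [abs_le] at hX
    rw [le_abs] at h
    rcases h with h | h
    · have hr : (45 : ℝ) < 46 * ((j : ℝ) - j') + 140 * ((k : ℝ) - k') := by
        have : (45 : ℤ) < 46 * (j - j') + 140 * (k - k') := by omega
        exact_mod_cast this
      linarith [hx0.1, hx0.2, hy0.1, hy0.2, hX.1, hX.2]
    · have hr : (45 : ℝ) < -(46 * ((j : ℝ) - j') + 140 * ((k : ℝ) - k')) := by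
        have : (45 : ℤ) < -(46 * (j - j') + 140 * (k - k')) := by omega
        exact_mod_cast this
      linarith [hx0.1, hx0.2, hy0.1, hy0.2, hX.1, hX.2]

lemma iUnion_brickClass : (⋃ i, brickClass i) = Set.univ := by
  rw [Set.eq_univ_iff_forall]
  intro p
  set j : ℤ := round (p 1 / (11 / 20)) with hj
  set n : ℤ := round ((p 0 - 46 / 25 * (j : ℝ)) / (4 / 5)) with hn
  have h1 : |p 1 / (11 / 20) - (j : ℝ)| ≤ 1 / 2 := abs_sub_round _
  have h0 : |(p 0 - 46 / 25 * (j : ℝ)) / (4 / 5) - (n : ℝ)| ≤ 1 / 2 := abs_sub_round _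
  have hm0 : 0 ≤ n % 7 := Int.emod_nonneg _ (by norm_num)
  have hm7 : n % 7 < 7 := Int.emod_lt_of_pos _ (by norm_num)
  have hdiv : n = 7 * (n / 7) + n % 7 := (Int.mul_ediv_add_emod n 7).symm
  have hlt : (n % 7).toNat < 7 := by omega
  simp only [Set.mem_iUnion, brickClass]
  refine ⟨⟨(n % 7).toNat, hlt⟩, (j, n / 7), ?_, ?_⟩
  · have hcast : (((n % 7).toNat : ℕ) : ℝ) = ((n % 7 : ℤ) : ℝ) := by
      have : (((n % 7).toNat : ℕ) : ℤ) = n % 7 := Int.toNat_of_nonneg hm0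
      exact_mod_cast this
    have hnr : (n : ℝ) = 7 * ((n / 7 : ℤ) : ℝ) + ((n % 7 : ℤ) : ℝ) := by exact_mod_cast hdiv
    simp only [hcast]
    rw [abs_le] at h0 ⊢
    constructor <;> linarith [h0.1, h0.2]
  · simp only
    rw [abs_le] at h1 ⊢
    constructor <;> linarith [h1.1, h1.2]

/-- the translation taking the class `i` to the class `j` -/
noncomputable def shift (i j : Fin 7) : EuclideanSpace ℝ (Fin 2) :=
  EuclideanSpace.single 0 (4 / 5 * ((j.val : ℝ) - (i.val : ℝ)))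

lemma shift_zero (i j : Fin 7) : shift i j 0 = 4 / 5 * ((j.val : ℝ) - (i.val : ℝ)) := by
  simp [shift]

lemma shift_one (i j : Fin 7) : shift i j 1 = 0 := by
  simp [shift]

lemma brick_shift (i j : Fin 7) (q : ℤ × ℤ) (p : EuclideanSpace ℝ (Fin 2)) (hp : p ∈ brick i q) :
    p + shift i j ∈ brick j q := by
  obtain ⟨h0, h1⟩ := hp
  refine ⟨?_, ?_⟩
  · rw [PiLp.add_apply, shift_zero]
    have e : p 0 + 4 / 5 * ((j.val : ℝ) - (i.val : ℝ)) -
        (46 / 25 * (q.1 : ℝ) + 28 / 5 * (q.2 : ℝ) + 4 / 5 * (j.val : ℝ)) =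
        p 0 - (46 / 25 * (q.1 : ℝ) + 28 / 5 * (q.2 : ℝ) + 4 / 5 * (i.val : ℝ)) := by
      ring
    rw [e]
    exact h0
  · rw [PiLp.add_apply, shift_one, add_zero]
    exact h1

/-- the seven-colouring by bricks -/
theorem exists_seven : ∃ A : Fin 7 → Set (EuclideanSpace ℝ (Fin 2)),
    (∀ i, IsClosed (A i)) ∧ (∀ i, UnitFree (A i)) ∧ (⋃ i, A i) = Set.univ ∧
      ∀ i j, ∃ e : EuclideanSpace ℝ (Fin 2) ≃ᵢ EuclideanSpace ℝ (Fin 2), e '' A i = A j := by
  refine ⟨brickClass, isClosed_brickClass, unitFree_brickClass, iUnion_brickClass, ?_⟩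
  intro i j
  refine ⟨IsometryEquiv.addRight (shift i j), ?_⟩
  ext z
  simp only [Set.mem_image, brickClass, Set.mem_iUnion]
  constructor
  · rintro ⟨p, ⟨q, hp⟩, rfl⟩
    exact ⟨q, brick_shift i j q p hp⟩
  · rintro ⟨q, hz⟩
    refine ⟨z + shift j i, ⟨q, brick_shift j i q z hz⟩, ?_⟩
    have e : shift j i + shift i j = 0 := by
      ext l
      fin_cases l
      · show (shift j i + shift i j) 0 = 0
        rw [PiLp.add_apply, shift_zero, shift_zero]
        ring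
      · show (shift j i + shift i j) 1 = 0
        rw [PiLp.add_apply, shift_one, shift_one, add_zero]
    rw [IsometryEquiv.addRight_apply, add_assoc, e, add_zero]

end Pool.Agent.ClosedPlane
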