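import Pool.Agent.ClosedPlane.Defs
import Pool.Agent.ClosedPlane.Upper

set_option autoImplicit false

namespace Pool.Agent.ClosedPlane

/-- a closed unit-distance-free cover by six sets gives a good colouring of the disc of radius 10 -/
theorem exists_good (A : Fin 6 → Set (EuclideanSpace ℝ (Fin 2))) (hcl : ∀ i, IsClosed (A i))
    (huf : ∀ i, UnitFree (A i)) (hcov : (⋃ i, A i) = Set.univ) :
    ∃ (c : ℂ → Fin 6) (η : ℝ), 0 < η ∧ η ≤ 1 / 10 ∧ Good c η := by
  classical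
  let f : ℂ ≃ₗᵢ[ℝ] EuclideanSpace ℝ (Fin 2) := Complex.orthonormalBasisOneI.repr
  have hf : Continuous f := f.continuous
  have hmem : ∀ z : ℂ, ∃ i, f z ∈ A i := by
    intro z
    have : f z ∈ ⋃ i, A i := by rw [hcov]; trivial
    simpa using this
  choose c hc using hmem
  have hη : ∀ i, ∃ η : ℝ, 0 < η ∧ ∀ z z' : ℂ, ‖z‖ ≤ 10 → ‖z'‖ ≤ 10 → f z ∈ A i → f z' ∈ A i →
      η ≤ |‖z - z'‖ - 1| := by
    intro i
    let S : Set (ℂ × ℂ) := (Metric.closedBall 0 10 ∩ f ⁻¹' (A i)) ×ˢ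
      (Metric.closedBall 0 10 ∩ f ⁻¹' (A i))
    have hS1 : IsCompact (Metric.closedBall (0 : ℂ) 10 ∩ f ⁻¹' (A i)) :=
      (isCompact_closedBall 0 10).inter_right ((hcl i).preimage hf)
    have hS : IsCompact S := hS1.prod hS1
    have hcont : ContinuousOn (fun p : ℂ × ℂ => |‖p.1 - p.2‖ - 1|) S := by
      apply Continuous.continuousOn
      fun_prop
    have hpos : ∀ p ∈ S, 0 < |‖p.1 - p.2‖ - 1| := by
      rintro ⟨z, z'⟩ ⟨⟨_, h1⟩, ⟨_, h2⟩⟩
      rw [abs_pos]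
      intro h
      have hd : dist (f z) (f z') = 1 := by
        rw [f.dist_map, dist_eq_norm]
        simp only at h
        linarith
      exact huf i _ h1 _ h2 hd
    obtain ⟨η, hη, hle⟩ := hS.exists_forall_le' hcont hpos
    refine ⟨η, hη, ?_⟩
    intro z z' hz hz' h1 h2
    apply hle (z, z')
    refine ⟨⟨?_, h1⟩, ⟨?_, h2⟩⟩
    · simpa using hz
    · simpa using hz'
  choose η hη hηle using hη
  obtain ⟨m, hm⟩ : ∃ m : ℝ, 0 < m ∧ ∀ i, m ≤ η i := by
    obtain ⟨i, hi⟩ := Finite.exists_min η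
    exact ⟨η i, hη i, hi⟩
  refine ⟨c, min (m / 2) (1 / 10), lt_min (half_pos hm.1) (by norm_num), min_le_right _ _, ?_⟩
  intro z z' hz hz' hd heq
  have h1 := hc z
  have h2 := hc z'
  rw [← heq] at h2
  have h3 := hηle (c z) z z' hz hz' h1 h2
  have h4 := hm.2 (c z)
  have h5 : min (m / 2) (1 / 10) ≤ m / 2 := min_le_left _ _
  have h6 := hm.1
  linarith

end Pool.Agent.ClosedPlane
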