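import Pool.Agent.ClosedPlane.Cases

namespace Pool.Agent.ClosedPlane

open Complex

variable {c : ℂ → Fin 6} {η δ : ℝ}

theorem www_id : ∀ a b d : Fin 6, a.val < 3 → b.val < 3 → d.val < 3 →
    (if a = b then (0 : ZMod 2) else 1) + (if a = d then 0 else 1) + (if b = d then 0 else 1)
      = if ({a, b, d} : Finset (Fin 6)) = {0, 1, 2} then 1 else 0 := by decide

theorem not_012 : ∀ a b d : Fin 6, ¬ a.val < 3 ∨ ¬ b.val < 3 ∨ ¬ d.val < 3 →
    ({a, b, d} : Finset (Fin 6)) ≠ {0, 1, 2} := by decide

theorem mul_self_two (a : ZMod 2) : a * a = a := by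
  revert a; decide

/-- the contradiction -/
theorem Setup.contra (S : Setup c η δ) {v y z : Lat} (hv : ‖pos δ v‖ ≤ 4) (hvy : D δ v y ≤ δ)
    (hvz : D δ v z ≤ δ) (h0 : c (pos δ v) = 0) (h1 : c (pos δ y) = 1) (h2 : c (pos δ z) = 2) :
    False := by
  classical
  have hδ := S.hδ
  have hδ1 := S.hδ1
  have hη := S.hη
  have hη1 := S.hη1
  have hn : [c (pos δ v), c (pos δ y), c (pos δ z), 3, 4, 5].Nodup := by
    rw [h0, h1, h2]; decide
  obtain ⟨s, hs⟩ := S.circ (by linarith) hvy hvz hn
  have hblack : ∀ u : Fin 6, ¬ u.val < 3 → u = 3 ∨ u = 4 ∨ u = 5 := by decide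
  have hwhite : ∀ u : Fin 6, u.val < 3 → u ∈ ({0, 1, 2} : Finset (Fin 6)) := by decide
  have two : (2 : ZMod 2) = 0 := rfl
  set n : Lat → ZMod 2 := fun p => zz (c ∘ pos δ) δ p {0, 1, 2} with hndef
  set W : Lat → Prop := fun p => (c (pos δ p)).val < 3 with hW
  have hWv : W v := by simp only [hW]; rw [h0]; decide
  have hwin : ∀ p, D δ p v ≤ 1 → ‖pos δ p‖ ≤ 5 := by
    intro p hp
    have := norm_le_of_D hv hp
    linarith
  have hn_eq : ∀ p q, D δ p v ≤ 1 → D δ p q ≤ δ → W p → n p = n q := by
    intro p q hp hpq hWp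
    exact S.zz_eq (x := p) (x' := q) (y := p) (by linarith [hwin p hp]) hpq
      (by rw [D_self]; exact hδ.le) (hwhite _ hWp)
  have h345 : ∀ p, D δ p v ≤ 1 → zz (c ∘ pos δ) δ p {3, 4, 5} = 0 := by
    intro p hp
    exact S.comp0 (by linarith) hvy hvz (by rw [D_comm]; exact hp) hn
  set G : Lat → Fin 6 → ZMod 2 := fun p b => GG (zz (c ∘ pos δ) δ p) (c (pos δ p)) b with hG
  set Ψ : Lat → Lat → ZMod 2 := fun p q =>
    if W p then
      (if W q then (if c (pos δ p) = c (pos δ q) then 0 else 1) + (n p * n q + 1) * chix v p q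
        else G p (c (pos δ q)) + (n p + 1) * (s q + chix v p q))
    else (if W q then G q (c (pos δ p)) + (n q + 1) * (s p + chix v q p) else 0) with hΨ
  have hΨs : ∀ p q, Ψ p q = Ψ q p := by
    intro p q
    simp only [hΨ]
    by_cases hp : W p <;> by_cases hq : W q
    · rw [if_pos hp, if_pos hq, if_pos hq, if_pos hp, chix_symm v q p, mul_comm (n q)]
      congr 1
      by_cases h : c (pos δ p) = c (pos δ q)
      · rw [if_pos h, if_pos h.symm]
      · rw [if_neg h, if_neg (fun h' => h h'.symm)]
    · rw [if_pos hp, if_neg hq, if_neg hq, if_pos hp]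
    · rw [if_neg hp, if_pos hq, if_pos hq, if_neg hp]
    · rw [if_neg hp, if_neg hq, if_neg hq, if_neg hp]
  have adjD : ∀ {p q : Lat}, adj p q → D δ p q ≤ δ := fun h => (norm_adj hδ h).le
  have Ψww : ∀ {p q : Lat}, W p → W q → Ψ p q
      = (if c (pos δ p) = c (pos δ q) then 0 else 1) + (n p * n q + 1) * chix v p q := by
    intro p q hp hq
    simp only [hΨ]
    rw [if_pos hp, if_pos hq]
  have Ψwb : ∀ {p q : Lat}, W p → ¬ W q → Ψ p q
      = G p (c (pos δ q)) + (n p + 1) * (s q + chix v p q) := by
    intro p q hp hq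
    simp only [hΨ]
    rw [if_pos hp, if_neg hq]
  have Ψbb : ∀ {p q : Lat}, ¬ W p → ¬ W q → Ψ p q = 0 := by
    intro p q hp hq
    simp only [hΨ]
    rw [if_neg hp, if_neg hq]
  -- white white black
  have L1 : ∀ w w' b, adj w w' → adj w b → adj w' b → D δ w v ≤ 1 → D δ w' v ≤ 1 → D δ b v ≤ 1 →
      W w → W w' → ¬ W b → Ψ w w' + Ψ w b + Ψ w' b
        = (n w + 1) * (chix v w w' + chix v w b + chix v w' b) := by
    intro w w' b aw ab ab' dw dw' db hw hw' hb
    have enn : n w' = n w := (hn_eq w w' dw (adjD aw) hw).symm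
    have eG : G w (c (pos δ b)) + G w' (c (pos δ b))
        = if c (pos δ w) = c (pos δ w') then 0 else 1 := by
      by_cases h : c (pos δ w) = c (pos δ w')
      · rw [if_pos h]
        simp only [hG]
        rw [S.caseB (b := b) (by linarith [hwin w dw]) (adjD aw) (adjD ab) h]
        exact CharTwo.add_self_eq_zero _
      · rw [if_neg h]
        exact S.caseD (by linarith [hwin w dw]) (adjD aw) (adjD ab) hw hw' hb h (h345 w dw)
    rw [Ψww hw hw', Ψwb hw hb, Ψwb hw' hb, enn, mul_self_two]
    linear_combination eG + (n w + 1) * s b * two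
      + (if c (pos δ w) = c (pos δ w') then (0 : ZMod 2) else 1) * two
  -- white black black
  have L2 : ∀ w b b', adj w b → adj w b' → adj b b' → D δ w v ≤ 1 → D δ b v ≤ 1 → D δ b' v ≤ 1 →
      W w → ¬ W b → ¬ W b' → Ψ w b + Ψ w b' + Ψ b b'
        = (n w + 1) * (chix v w b + chix v w b' + chix v b b') := by
    intro w b b' ab ab' abb dw db db' hw hb hb'
    have hbv : b ≠ v := by
      rintro rfl; exact hb hWv
    have hb'v : b' ≠ v := by
      rintro rfl; exact hb' hWv
    have es := hs b b' abb hbv hb'v (by linarith) (by linarith) (hblack _ hb) (hblack _ hb')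
    have eG : G w (c (pos δ b)) + G w (c (pos δ b'))
        = (if c (pos δ b) = c (pos δ b') then 0 else 1) * (n w + 1) := by
      by_cases h : c (pos δ b) = c (pos δ b')
      · rw [if_pos h, h, zero_mul]
        exact CharTwo.add_self_eq_zero _
      · rw [if_neg h, one_mul]
        have := S.caseC (by linarith [hwin w dw]) (adjD ab) (adjD ab') hw hb hb' h
        simp only [hG]
        rw [this, add_comm]
    rw [Ψwb hw hb, Ψwb hw hb', Ψbb hb hb']
    rw [es] at eG
    linear_combination eG + (n w + 1) * (s b + s b') * two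
  -- the general triangle
  have T3 : ∀ t ∈ ball δ v, dpsi Ψ t
      = (if cols (c ∘ pos δ) t = {0, 1, 2} then 1 else 0) + (n v + 1) * dpsi (chix v) t := by
    intro t ht
    rw [mem_ball' hδ] at ht
    set p := w1 t with hp
    set q := w2 t with hq
    set r := w3 t with hr
    have dp : D δ p v ≤ 1 := ht p (Or.inl rfl)
    have dq : D δ q v ≤ 1 := ht q (Or.inr (Or.inl rfl))
    have dr : D δ r v ≤ 1 := ht r (Or.inr (Or.inr rfl))
    have apq : adj p q := adj12 t
    have apr : adj p r := adj13 t
    have aqr : adj q r := adj23 t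
    have aqp := adj_symm apq
    have arp := adj_symm apr
    have arq := adj_symm aqr
    have key : ∃ N : ZMod 2, (∀ u, V t u → W u → n u = N) ∧ Ψ p q + Ψ p r + Ψ q r
        = (if cols (c ∘ pos δ) t = {0, 1, 2} then 1 else 0)
          + (N + 1) * (chix v p q + chix v p r + chix v q r) := by
      have hnot : (¬ W p ∨ ¬ W q ∨ ¬ W r) → cols (c ∘ pos δ) t ≠ {0, 1, 2} := by
        intro h
        exact not_012 _ _ _ h
      by_cases hWp : W p <;> by_cases hWq : W q <;> by_cases hWr : W r
      · refine ⟨n p, ?_, ?_⟩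
        · rintro u (rfl | rfl | rfl) _
          · rfl
          · exact hn_eq _ _ dq (adjD aqp) hWq
          · exact hn_eq _ _ dr (adjD arp) hWr
        · have e1 : n q = n p := hn_eq _ _ dq (adjD aqp) hWq
          have e2 : n r = n p := hn_eq _ _ dr (adjD arp) hWr
          have e3 := www_id _ _ _ hWp hWq hWr
          have e4 : cols (c ∘ pos δ) t = {c (pos δ p), c (pos δ q), c (pos δ r)} := rfl
          rw [e4, ← e3]
          rw [Ψww hWp hWq, Ψww hWp hWr, Ψww hWq hWr, e1, e2, mul_self_two]
          ring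
      · refine ⟨n p, ?_, ?_⟩
        · rintro u (rfl | rfl | rfl) hu
          · rfl
          · exact hn_eq _ _ dq (adjD aqp) hWq
          · exact absurd hu hWr
        · rw [if_neg (hnot (Or.inr (Or.inr hWr))), zero_add]
          exact L1 p q r apq apr aqr dp dq dr hWp hWq hWr
      · refine ⟨n p, ?_, ?_⟩
        · rintro u (rfl | rfl | rfl) hu
          · rfl
          · exact absurd hu hWq
          · exact hn_eq _ _ dr (adjD arp) hWr
        · rw [if_neg (hnot (Or.inr (Or.inl hWq))), zero_add]
          have := L1 p r q apr apq arq dp dr dq hWp hWr hWq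
          rw [hΨs r q, chix_symm v r q] at this
          linear_combination this
      · refine ⟨n p, ?_, ?_⟩
        · rintro u (rfl | rfl | rfl) hu
          · rfl
          · exact absurd hu hWq
          · exact absurd hu hWr
        · rw [if_neg (hnot (Or.inr (Or.inl hWq))), zero_add]
          exact L2 p q r apq apr aqr dp dq dr hWp hWq hWr
      · refine ⟨n q, ?_, ?_⟩
        · rintro u (rfl | rfl | rfl) hu
          · exact absurd hu hWp
          · rfl
          · exact hn_eq _ _ dr (adjD arq) hWr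
        · rw [if_neg (hnot (Or.inl hWp)), zero_add]
          have := L1 q r p aqr aqp arp dq dr dp hWq hWr hWp
          rw [hΨs q p, hΨs r p, chix_symm v q p, chix_symm v r p] at this
          linear_combination this
      · refine ⟨n q, ?_, ?_⟩
        · rintro u (rfl | rfl | rfl) hu
          · exact absurd hu hWp
          · rfl
          · exact absurd hu hWr
        · rw [if_neg (hnot (Or.inl hWp)), zero_add]
          have := L2 q p r aqp aqr apr dq dp dr hWq hWp hWr
          rw [hΨs q p, chix_symm v q p] at this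
          linear_combination this
      · refine ⟨n r, ?_, ?_⟩
        · rintro u (rfl | rfl | rfl) hu
          · exact absurd hu hWp
          · exact absurd hu hWq
          · rfl
        · rw [if_neg (hnot (Or.inl hWp)), zero_add]
          have := L2 r p q arp arq apq dr dp dq hWr hWp hWq
          rw [hΨs r p, hΨs r q, chix_symm v r p, chix_symm v r q] at this
          linear_combination this
      · refine ⟨1, ?_, ?_⟩
        · rintro u (rfl | rfl | rfl) hu
          · exact absurd hu hWp
          · exact absurd hu hWq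
          · exact absurd hu hWr
        · rw [if_neg (hnot (Or.inl hWp))]
          rw [Ψbb hWp hWq, Ψbb hWp hWr, Ψbb hWq hWr]
          have : (1 : ZMod 2) + 1 = 0 := rfl
          rw [this]
          simp
    obtain ⟨N, hN, hT⟩ := key
    have e : dpsi Ψ t = Ψ p q + Ψ p r + Ψ q r := rfl
    have e' : dpsi (chix v) t = chix v p q + chix v p r + chix v q r := rfl
    rw [e, hT, ← e', dchi]
    by_cases htt : t = (v - (1, 1), true)
    · have : V t v := by
        rw [htt]; exact Or.inl (by simp [w1])
      rw [hN v this hWv]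
    · rw [if_neg htt, mul_zero, mul_zero]
  have hsum : ∑ t ∈ ball δ v, dpsi Ψ t = 0 := by
    apply stokes_ball hδ v Ψ hΨs
    intro a b _ ha1 ha2 hb1 hb2
    have key : ∀ p : Lat, 1 - δ ≤ ‖pos δ p - pos δ v‖ → ‖pos δ p - pos δ v‖ ≤ 1 → ¬ W p := by
      intro p hp1 hp2 hWp
      have hp1' : 1 - δ ≤ D δ p v := hp1
      have hp2' : D δ p v ≤ 1 := hp2
      have key2 : ∀ q : Lat, D δ v q ≤ δ → c (pos δ p) ≠ c (pos δ q) := by
        intro q hq
        have e2 := D_tri δ p v q
        have e3 := D_tri δ p q v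
        have e4 : D δ q v ≤ δ := by rw [D_comm]; exact hq
        apply S.ne
        · linarith [hwin p hp2']
        · have := norm_le_of_D (δ := δ) (a := q) (b := v) (s := 1) hv (by linarith)
          linarith
        · rw [abs_le]
          constructor <;> linarith
      have k0 := key2 v (by rw [D_self]; exact hδ.le)
      have k1 := key2 y hvy
      have k2 := key2 z hvz
      rw [h0] at k0
      rw [h1] at k1
      rw [h2] at k2
      have : ∀ u : Fin 6, u.val < 3 → u = 0 ∨ u = 1 ∨ u = 2 := by decide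
      rcases this _ hWp with h | h | h
      · exact k0 h
      · exact k1 h
      · exact k2 h
    exact Ψbb (key a ha1 ha2) (key b hb1 hb2)
  rw [Finset.sum_congr rfl T3, Finset.sum_add_distrib, ← Finset.mul_sum,
    sum_dchi hδ (by linarith) v] at hsum
  have e : ∑ t ∈ ball δ v, (if cols (c ∘ pos δ) t = {0, 1, 2} then (1 : ZMod 2) else 0) = n v := rfl
  rw [e] at hsum
  have : (1 : ZMod 2) = 0 := by linear_combination hsum - n v * two
  exact one_ne_zero this

/-- the core: there is no good colouring with six colours -/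
theorem no_good (c : ℂ → Fin 6) (η : ℝ) (hη : 0 < η) (hη1 : η ≤ 1 / 10) (hc : Good c η) :
    False := by
  set δ : ℝ := η / 8 with hδ
  have hδ0 : 0 < δ := by positivity
  obtain ⟨t, h12, h13, h23, n1, -, -⟩ := Sp.exists_tri c η δ hη hη1 hδ0 (by linarith) hc
  -- relabel the colours
  have hperm : ∀ a b d : Fin 6, a ≠ b → a ≠ d → b ≠ d →
      ∃ π : Equiv.Perm (Fin 6), π a = 0 ∧ π b = 1 ∧ π d = 2 := by
    intro a b d hab had hbd
    set π1 : Equiv.Perm (Fin 6) := Equiv.swap a 0 with hπ1
    have e1 : π1 a = 0 := Equiv.swap_apply_left _ _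
    have hb1 : (0 : Fin 6) ≠ π1 b := by
      rw [← e1]; exact fun h => hab (π1.injective h)
    set π2 : Equiv.Perm (Fin 6) := Equiv.swap (π1 b) 1 with hπ2
    have e2 : π2 0 = 0 := Equiv.swap_apply_of_ne_of_ne hb1 (by decide)
    have e3 : π2 (π1 b) = 1 := Equiv.swap_apply_left _ _
    have hd1 : (0 : Fin 6) ≠ π2 (π1 d) := by
      intro h
      have h' : π2 (π1 a) = π2 (π1 d) := by rw [e1, e2]; exact h
      exact had (π1.injective (π2.injective h'))
    have hd2 : (1 : Fin 6) ≠ π2 (π1 d) := by
      intro h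
      have h' : π2 (π1 b) = π2 (π1 d) := by rw [e3]; exact h
      exact hbd (π1.injective (π2.injective h'))
    set π3 : Equiv.Perm (Fin 6) := Equiv.swap (π2 (π1 d)) 2 with hπ3
    have e4 : π3 0 = 0 := Equiv.swap_apply_of_ne_of_ne hd1 (by decide)
    have e5 : π3 1 = 1 := Equiv.swap_apply_of_ne_of_ne hd2 (by decide)
    have e6 : π3 (π2 (π1 d)) = 2 := Equiv.swap_apply_left _ _
    refine ⟨π1.trans (π2.trans π3), ?_, ?_, ?_⟩
    · simp only [Equiv.trans_apply]; rw [e1, e2, e4]
    · simp only [Equiv.trans_apply]; rw [e3, e5]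
    · simp only [Equiv.trans_apply]; rw [e6]
  obtain ⟨π, p1, p2, p3⟩ := hperm _ _ _ h12 h13 h23
  have S : Setup (fun w => π (c w)) η δ :=
    ⟨hη, hη1, hδ0, le_refl _, fun z z' hz hz' h hcon => hc z z' hz hz' h (π.injective hcon)⟩
  exact S.contra (v := w1 t) (y := w2 t) (z := w3 t) n1 (norm_adj hδ0 (adj12 t)).le
    (norm_adj hδ0 (adj13 t)).le p1 p2 p3

end Pool.Agent.ClosedPlane
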