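import Mathlib

/-! Triangular lattice, colourings and the counting functions used in the proof that the
plane is not covered by six closed unit-distance-free sets. -/

namespace Pool.Agent.ClosedPlane

open Complex

/-- lattice points `m + n ω` -/
abbrev Lat := ℤ × ℤ

/-- lattice triangles: `(a, false)` has the vertices `a, a+(1,0), a+(0,1)` and
`(a, true)` has the vertices `a+(1,1), a+(1,0), a+(0,1)` -/
abbrev Tri := Lat × Bool

noncomputable def om : ℂ := ⟨1 / 2, Real.sqrt 3 / 2⟩

/-- the position in the plane of a lattice point, mesh `δ` -/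
noncomputable def pos (δ : ℝ) (a : Lat) : ℂ := (δ : ℂ) * ((a.1 : ℂ) + (a.2 : ℂ) * om)

def w1 (t : Tri) : Lat := if t.2 then t.1 + (1, 1) else t.1
def w2 (t : Tri) : Lat := t.1 + (1, 0)
def w3 (t : Tri) : Lat := t.1 + (0, 1)

/-- sum of an edge function over the three edges of a triangle -/
def dpsi (ψ : Lat → Lat → ZMod 2) (t : Tri) : ZMod 2 :=
  ψ (w1 t) (w2 t) + ψ (w1 t) (w3 t) + ψ (w2 t) (w3 t)

/-- adjacency of lattice points -/
def adj (a b : Lat) : Prop :=
  b - a ∈ ({(1, 0), (0, 1), (-1, 1), (-1, 0), (0, -1), (1, -1)} : Finset Lat)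

instance (a b : Lat) : Decidable (adj a b) := by unfold adj; infer_instance

/-- the cut cochain -/
def chi (a b : Lat) : ZMod 2 :=
  if (a.2 = 0 ∧ a.1 ≤ -1 ∧ b.2 = -1) ∨ (b.2 = 0 ∧ b.1 ≤ -1 ∧ a.2 = -1) then 1 else 0

/-- `c` is a colouring of the disc of radius `10` in which points whose distance is within `η`
of `1` have different colours -/
def Good (c : ℂ → Fin 6) (η : ℝ) : Prop :=
  ∀ z z' : ℂ, ‖z‖ ≤ 10 → ‖z'‖ ≤ 10 → |‖z - z'‖ - 1| ≤ η → c z ≠ c z'

end Pool.Agent.ClosedPlane
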