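import Mathlib

/-! Lifting a cyclic sequence of colours in `ZMod 3` to the integers: the total increment
is odd. -/

namespace Pool.Agent.ClosedPlane

/-- the representative in `{-1, 0, 1}` -/
def stepLift (z : ZMod 3) : ℤ := if z = 0 then 0 else if z = 1 then 1 else -1

lemma stepLift_cast : ∀ z : ZMod 3, ((stepLift z : ℤ) : ZMod 3) = z := by decide

lemma stepLift_abs : ∀ z : ZMod 3, |stepLift z| ≤ 1 := by decide

lemma stepLift_four : ∀ a b c e : ZMod 3, a ≠ c → b ≠ e → b ≠ c → a ≠ e →
    |stepLift (e - c) - stepLift (b - a)| ≤ 1 := by decide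

lemma third_colour : ∀ a b b' c : ZMod 3, b' ≠ b → a ≠ b → a ≠ b' → b ≠ c → b' ≠ c → c - a = 0 := by
  decide

/-- the lift -/
def seqLift (g : ℕ → ZMod 3) : ℕ → ℤ
  | 0 => (g 0).val
  | k + 1 => seqLift g k + stepLift (g (k + 1) - g k)

lemma seqLift_succ (g : ℕ → ZMod 3) (k : ℕ) :
    seqLift g (k + 1) = seqLift g k + stepLift (g (k + 1) - g k) := rfl

lemma seqLift_cast (g : ℕ → ZMod 3) (k : ℕ) : ((seqLift g k : ℤ) : ZMod 3) = g k := by
  induction k with
  | zero => simp [seqLift]
  | succ k ih =>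
    rw [seqLift_succ, Int.cast_add, stepLift_cast, ih]
    ring

lemma seqLift_step (g : ℕ → ZMod 3) (k : ℕ) : |seqLift g (k + 1) - seqLift g k| ≤ 1 := by
  rw [seqLift_succ, add_sub_cancel_left]
  exact stepLift_abs _

lemma dvd_of_cast_eq_zero {z : ℤ} (h : ((z : ℤ) : ZMod 3) = 0) : (3 : ℤ) ∣ z := by
  have := (ZMod.intCast_zmod_eq_zero_iff_dvd z 3).1 h
  exact_mod_cast this

lemma cast_eq_zero_of_dvd {z : ℤ} (h : (3 : ℤ) ∣ z) : ((z : ℤ) : ZMod 3) = 0 := by
  apply (ZMod.intCast_zmod_eq_zero_iff_dvd z 3).2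
  exact_mod_cast h

/-- periodic sequences in `ZMod 3` avoiding equality at distance `M`, `M - 1`, `M + 1`: the lift
has an odd total increment -/
theorem lift_odd (M : ℕ) (_hM : 1 ≤ M) (g : ℕ → ZMod 3) (hper : ∀ k, g (k + 6 * M) = g k)
    (h0 : ∀ k, g k ≠ g (k + M)) (h1 : ∀ k, g (k + 1) ≠ g (k + M)) (h2 : ∀ k, g k ≠ g (k + M + 1)) :
    ∃ F : ℕ → ℤ, (∀ k, ((F k : ℤ) : ZMod 3) = g k) ∧ (∀ k, |F (k + 1) - F k| ≤ 1) ∧
      ∃ D : ℤ, Odd D ∧ ∀ k, F (k + 6 * M) = F k + D := by
  refine ⟨seqLift g, seqLift_cast g, seqLift_step g, ?_⟩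
  set F := seqLift g with hF
  -- the increments over one sixth of the circle
  have hG3 : ∀ k, ¬ (3 : ℤ) ∣ F (k + M) - F k := by
    intro k hk
    have := cast_eq_zero_of_dvd hk
    rw [Int.cast_sub, hF, seqLift_cast, seqLift_cast, sub_eq_zero] at this
    exact h0 k this.symm
  have hGs : ∀ k, |(F (k + 1 + M) - F (k + 1)) - (F (k + M) - F k)| ≤ 1 := by
    intro k
    have e : k + 1 + M = k + M + 1 := by ring
    have h0' := h0 (k + 1)
    rw [e] at h0' ⊢
    rw [hF, seqLift_succ g (k + M), seqLift_succ g k]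
    have := stepLift_four (g k) (g (k + 1)) (g (k + M)) (g (k + M + 1)) (h0 k) h0' (h1 k) (h2 k)
    have e2 : seqLift g (k + M) + stepLift (g (k + M + 1) - g (k + M)) -
        (seqLift g k + stepLift (g (k + 1) - g k)) - (seqLift g (k + M) - seqLift g k) =
        stepLift (g (k + M + 1) - g (k + M)) - stepLift (g (k + 1) - g k) := by ring
    rw [e2]
    exact this
  obtain ⟨m, hm⟩ : ∃ m : ℤ, ∀ k, 3 * m + 1 ≤ F (k + M) - F k ∧ F (k + M) - F k ≤ 3 * m + 2 := by
    refine ⟨(F (0 + M) - F 0) / 3, ?_⟩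
    intro k
    induction k with
    | zero =>
      have := hG3 0
      omega
    | succ k ih =>
      have a1 := hG3 (k + 1)
      have a2 := hGs k
      rw [abs_le] at a2
      omega
  -- the total increment does not depend on the starting point
  have hconst : ∀ k, F (k + 6 * M) - F k = F (0 + 6 * M) - F 0 := by
    intro k
    induction k with
    | zero => rfl
    | succ k ih =>
      rw [← ih]
      have e : k + 1 + 6 * M = k + 6 * M + 1 := by ring
      rw [e, hF, seqLift_succ g (k + 6 * M), seqLift_succ g k, hper k]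
      have e3 : g (k + 6 * M + 1) = g (k + 1) := by
        rw [← e]
        exact hper (k + 1)
      rw [e3]
      ring
  refine ⟨F (0 + 6 * M) - F 0, ?_, fun k => by rw [← hconst k]; ring⟩
  -- there is a change
  obtain ⟨k, hk⟩ : ∃ k, g (k + M + 1) ≠ g (k + M) := by
    by_contra hno
    push Not at hno
    have hc : ∀ n, g (0 + M + n) = g (0 + M) := by
      intro n
      induction n with
      | zero => rfl
      | succ n ih =>
        have := hno n
        have e1 : n + M + 1 = 0 + M + (n + 1) := by ring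
        have e2 : n + M = 0 + M + n := by ring
        rw [e1, e2] at this
        rw [this, ih]
    exact h0 (0 + M) (hc M).symm
  have hthird : g (k + M + M) - g k = 0 :=
    third_colour (g k) (g (k + M)) (g (k + M + 1)) (g (k + M + M)) hk (h0 k) (h2 k) (h0 (k + M))
      (h1 (k + M))
  have hd1 : (3 : ℤ) ∣ F (k + M + M) - F k := by
    apply dvd_of_cast_eq_zero
    rw [Int.cast_sub, hF, seqLift_cast, seqLift_cast]
    exact hthird
  have hd2 : (3 : ℤ) ∣ F (k + 6 * M) - F k := by
    apply dvd_of_cast_eq_zero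
    rw [Int.cast_sub, hF, seqLift_cast, seqLift_cast, hper, sub_self]
  have b0 := hm k
  have b1 := hm (k + M)
  have b2 := hm (k + M + M)
  have b3 := hm (k + M + M + M)
  have b4 := hm (k + M + M + M + M)
  have b5 := hm (k + M + M + M + M + M)
  have e6 : k + M + M + M + M + M + M = k + 6 * M := by ring
  rw [e6] at b5
  rw [← hconst k]
  have hval : F (k + 6 * M) - F k = 18 * m + 9 := by omega
  rw [hval]
  exact ⟨9 * m + 4, by ring⟩

end Pool.Agent.ClosedPlane
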